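import Mathlib
import Pool.Agent.Helper434.PSCplx

set_option autoImplicit false

namespace Pool.Agent.H416Z.St

open Filter Topology ComplexConjugate ENNReal
open Pool.Agent.Helper434.PSCplx (SS MM SS_apply MM_apply exists_H inner_eq summ)

/-- square summable complex sequences -/
abbrev L2 : Type := lp (fun _ : ℤ => ℂ) 2

/-- `H` is the discrete Schroedinger operator with potential `V` -/
def IsOp (V : ℤ → ℝ) (H : L2 →L[ℂ] L2) : Prop :=
  ∀ (ψ : L2) (n : ℤ), H ψ n = ψ (n + 1) + ψ (n - 1) + (V n : ℂ) * ψ n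

/-- the real points of the spectrum -/
def rspec (H : L2 →L[ℂ] L2) : Set ℝ := {E : ℝ | (E : ℂ) ∈ spectrum ℂ H}

instance : Nontrivial L2 := ⟨⟨lp.single 2 0 1, 0, by
  intro h
  have := congrArg (fun f : L2 => f 0) h
  simp at this⟩⟩

lemma IsOp.unique {V : ℤ → ℝ} {H H' : L2 →L[ℂ] L2} (h : IsOp V H) (h' : IsOp V H') : H = H' := by
  ext ψ n
  rw [h, h']

lemma exists_op {V : ℤ → ℝ} {C : ℝ} (hV : ∀ n, |V n| ≤ C) : ∃ H, IsOp V H := by
  obtain ⟨H, h, -⟩ := exists_H V hV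
  exact ⟨H, h⟩

lemma IsOp.sa {V : ℤ → ℝ} {H : L2 →L[ℂ] L2} (h : IsOp V H) {C : ℝ} (hV : ∀ n, |V n| ≤ C) :
    IsSelfAdjoint H := by
  obtain ⟨H', h', hs⟩ := exists_H V hV
  rw [h.unique h']
  exact hs

lemma IsOp.norm_le {V : ℤ → ℝ} {H : L2 →L[ℂ] L2} (h : IsOp V H) {C : ℝ} (hV : ∀ n, |V n| ≤ C) :
    ‖H‖ ≤ 2 + C := by
  have hC : 0 ≤ C := (abs_nonneg _).trans (hV 0)
  have h' : IsOp V (SS 1 + SS (-1) + MM V hV) := fun ψ m => rfl
  rw [h.unique h']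
  have h1 : ∀ a, ‖SS a‖ ≤ 1 := fun a => LinearMap.mkContinuous_norm_le _ zero_le_one _
  have h2 : ‖MM V hV‖ ≤ C := LinearMap.mkContinuous_norm_le _ hC _
  have h3 := norm_add₃_le (a := SS 1) (b := SS (-1)) (c := MM V hV)
  linarith [h1 1, h1 (-1)]

lemma IsOp.abs_le {V : ℤ → ℝ} {H : L2 →L[ℂ] L2} (h : IsOp V H) {C : ℝ} (hV : ∀ n, |V n| ≤ C)
    {E : ℝ} (hE : E ∈ rspec H) : |E| ≤ 2 + C := by
  have := spectrum.norm_le_norm_of_mem (show (E : ℂ) ∈ spectrum ℂ H from hE)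
  rw [Complex.norm_real, Real.norm_eq_abs] at this
  exact this.trans (h.norm_le hV)

lemma isClosed_rspec (H : L2 →L[ℂ] L2) : IsClosed (rspec H) :=
  (spectrum.isClosed H).preimage Complex.continuous_ofReal

lemma isCompact_rspec (H : L2 →L[ℂ] L2) : IsCompact (rspec H) := by
  refine (isCompact_Icc (a := -‖H‖) (b := ‖H‖)).of_isClosed_subset (isClosed_rspec H) ?_
  intro E hE
  have := spectrum.norm_le_norm_of_mem (show (E : ℂ) ∈ spectrum ℂ H from hE)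
  rw [Complex.norm_real, Real.norm_eq_abs] at this
  exact abs_le.mp this

/-- spectrum of the inverse of `z - H` -/
lemma inv_mem {H : L2 →L[ℂ] L2} {z : ℂ} (u : (L2 →L[ℂ] L2)ˣ)
    (hu : (u : L2 →L[ℂ] L2) = algebraMap ℂ _ z - H) {w : ℂ} (hw : w ≠ 0) :
    w⁻¹ ∈ spectrum ℂ ((u⁻¹ : (L2 →L[ℂ] L2)ˣ) : L2 →L[ℂ] L2) ↔ z - w ∈ spectrum ℂ H := by
  have h1 := spectrum.inv_mem_iff (r := Units.mk0 w hw) (a := u)
  have h2 : w ∈ spectrum ℂ (u : L2 →L[ℂ] L2) ↔ z - w ∈ spectrum ℂ H := by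
    rw [hu, spectrum.mem_iff, spectrum.mem_iff, map_sub, ← IsUnit.neg_iff]
    have : -(algebraMap ℂ (L2 →L[ℂ] L2) w - (algebraMap ℂ _ z - H)) =
        algebraMap ℂ _ z - algebraMap ℂ _ w - H := by abel
    rw [this]
  rw [← h2]
  simp

lemma weyl_of_mem {H : L2 →L[ℂ] L2} (hH : IsSelfAdjoint H) {E : ℝ} (hE : E ∈ rspec H) {ε : ℝ}
    (hε : 0 < ε) : ∃ ψ : L2, ψ ≠ 0 ∧ ‖H ψ - (E : ℂ) • ψ‖ ≤ ε * ‖ψ‖ := by
  set δ := ε / 3 with hδ
  have hδ0 : 0 < δ := by positivity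
  set z : ℂ := E + δ * Complex.I with hz
  have hz1 : z ∉ spectrum ℂ H := by
    intro h
    have := hH.mem_spectrum_eq_re h
    have h2 := congrArg Complex.im this
    simp [hz] at h2
    exact hδ0.ne' h2
  rw [spectrum.notMem_iff] at hz1
  obtain ⟨u, hu⟩ := hz1
  have hw : (δ * Complex.I : ℂ) ≠ 0 := by
    simp [hδ0.ne']
  have hE' : (E : ℂ) ∈ spectrum ℂ H := hE
  have h1 := (inv_mem u hu hw).mpr (by simpa [hz] using hE')
  have h2 := spectrum.norm_le_norm_of_mem h1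
  have h3 : ‖(δ * Complex.I : ℂ)⁻¹‖ = δ⁻¹ := by
    simp [abs_of_pos hδ0]
  rw [h3] at h2
  set R : L2 →L[ℂ] L2 := ((u⁻¹ : (L2 →L[ℂ] L2)ˣ) : L2 →L[ℂ] L2) with hR
  have h4 : ∃ φ : L2, (2 * δ)⁻¹ * ‖φ‖ < ‖R φ‖ := by
    by_contra hc
    push Not at hc
    have := R.opNorm_le_bound (by positivity) hc
    have h5 : (2 * δ)⁻¹ < δ⁻¹ := by
      apply inv_strictAnti₀ hδ0; linarith
    linarith
  obtain ⟨φ, hφ⟩ := h4
  refine ⟨R φ, ?_, ?_⟩
  · intro h0
    rw [h0, norm_zero] at hφ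
    have : 0 ≤ (2 * δ)⁻¹ * ‖φ‖ := by positivity
    linarith
  · have h5 : (u : L2 →L[ℂ] L2) (R φ) = φ := by
      have : (u : L2 →L[ℂ] L2) * R = 1 := by rw [hR]; exact Units.mul_inv u
      have h6 := congrArg (fun T : L2 →L[ℂ] L2 => T φ) this
      simpa using h6
    rw [hu] at h5
    have h6 : H (R φ) - (E : ℂ) • R φ = (δ * Complex.I : ℂ) • R φ - φ := by
      have h7 : z • R φ - H (R φ) = φ := by
        simpa [Algebra.algebraMap_eq_smul_one] using h5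
      rw [hz, add_smul] at h7
      rw [← sub_eq_zero]
      have : H (R φ) - (E : ℂ) • R φ - ((δ * Complex.I : ℂ) • R φ - φ) =
        φ - ((E : ℂ) • R φ + (δ * Complex.I : ℂ) • R φ - H (R φ)) := by abel
      rw [this, h7, sub_self]
    rw [h6]
    have h7 : ‖φ‖ ≤ 2 * δ * ‖R φ‖ := by
      have := mul_lt_mul_of_pos_left hφ (show 0 < 2 * δ by positivity)
      rw [← mul_assoc, mul_inv_cancel₀ (by positivity), one_mul] at this
      exact this.le
    calc ‖(δ * Complex.I : ℂ) • R φ - φ‖ ≤ ‖(δ * Complex.I : ℂ) • R φ‖ + ‖φ‖ := norm_sub_le _ _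
      _ ≤ δ * ‖R φ‖ + 2 * δ * ‖R φ‖ := by
          rw [norm_smul]
          have : ‖(δ * Complex.I : ℂ)‖ = δ := by simp [abs_of_pos hδ0]
          rw [this]; linarith
      _ = ε * ‖R φ‖ := by rw [hδ]; ring

lemma near_of_weyl {H : L2 →L[ℂ] L2} (hH : IsSelfAdjoint H) {E ε : ℝ} {ψ : L2} (h0 : ψ ≠ 0)
    (h : ‖H ψ - (E : ℂ) • ψ‖ ≤ ε * ‖ψ‖) : ∃ E' ∈ rspec H, |E' - E| ≤ ε := by
  have hψ : 0 < ‖ψ‖ := norm_pos_iff.mpr h0
  have hε : 0 ≤ ε := by
    by_contra hc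
    push Not at hc
    have := mul_neg_of_neg_of_pos hc hψ
    linarith [norm_nonneg (H ψ - (E : ℂ) • ψ)]
  by_cases hE : E ∈ rspec H
  · exact ⟨E, hE, by simpa using hε⟩
  have hE' : (E : ℂ) ∉ spectrum ℂ H := hE
  rw [spectrum.notMem_iff] at hE'
  obtain ⟨u, hu⟩ := hE'
  set R : L2 →L[ℂ] L2 := ((u⁻¹ : (L2 →L[ℂ] L2)ˣ) : L2 →L[ℂ] L2) with hR
  have hus : IsSelfAdjoint (u : L2 →L[ℂ] L2) := by
    rw [hu]
    refine IsSelfAdjoint.sub ?_ hH
    rw [IsSelfAdjoint, ← algebraMap_star_comm]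
    simp
  have hRs : IsSelfAdjoint R := by
    rw [IsSelfAdjoint, hR, ← Units.coe_star, star_inv]
    congr 2
    ext1
    exact hus
  obtain ⟨w, hw, hw2⟩ := spectrum.exists_nnnorm_eq_spectralRadius R
  rw [hRs.spectralRadius_eq_nnnorm] at hw2
  have hw3 : ‖w‖ = ‖R‖ := by
    have := ENNReal.coe_injective hw2
    exact congrArg NNReal.toReal this
  have h5 : R ((u : L2 →L[ℂ] L2) ψ) = ψ := by
    have : R * (u : L2 →L[ℂ] L2) = 1 := by rw [hR]; exact Units.inv_mul u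
    have h6 := congrArg (fun T : L2 →L[ℂ] L2 => T ψ) this
    simpa using h6
  have h6 : ‖(u : L2 →L[ℂ] L2) ψ‖ ≤ ε * ‖ψ‖ := by
    rw [hu]
    have : (algebraMap ℂ (L2 →L[ℂ] L2) (E : ℂ) - H) ψ = -(H ψ - (E : ℂ) • ψ) := by
      rw [Algebra.algebraMap_eq_smul_one, neg_sub]
      rfl
    rw [this, norm_neg]; exact h
  have h7 : 1 ≤ ‖R‖ * ε := by
    have h8 := R.le_opNorm ((u : L2 →L[ℂ] L2) ψ)
    rw [h5] at h8
    have h9 : ‖ψ‖ ≤ ‖R‖ * ε * ‖ψ‖ := by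
      calc ‖ψ‖ ≤ ‖R‖ * ‖(u : L2 →L[ℂ] L2) ψ‖ := h8
        _ ≤ ‖R‖ * (ε * ‖ψ‖) := by gcongr
        _ = _ := by ring
    by_contra hc
    push Not at hc
    nlinarith
  have hw0 : w ≠ 0 := by
    intro h0
    rw [h0, norm_zero] at hw3
    rw [← hw3] at h7
    linarith
  have h8 := (inv_mem u hu (inv_ne_zero hw0)).mp (by simpa using hw)
  have h9 := hH.mem_spectrum_eq_re h8
  refine ⟨((E : ℂ) - w⁻¹).re, ?_, ?_⟩
  · show (((E : ℂ) - w⁻¹).re : ℂ) ∈ spectrum ℂ H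
    rw [← h9]; exact h8
  · have h10 : |((E : ℂ) - w⁻¹).re - E| ≤ ‖w⁻¹‖ := by
      rw [Complex.sub_re, Complex.ofReal_re]
      have : E - (w⁻¹).re - E = -(w⁻¹).re := by ring
      rw [this, abs_neg]
      exact Complex.abs_re_le_norm _
    refine h10.trans ?_
    rw [norm_inv, hw3]
    have hR0 : 0 < ‖R‖ := by rw [← hw3]; exact norm_pos_iff.mpr hw0
    rw [inv_le_iff_one_le_mul₀ hR0]
    linarith

lemma countable_eig {H : L2 →L[ℂ] L2} (hH : IsSelfAdjoint H) :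
    {E : ℝ | ∃ ψ : L2, ψ ≠ 0 ∧ H ψ = (E : ℂ) • ψ}.Countable := by
  set S := {E : ℝ | ∃ ψ : L2, ψ ≠ 0 ∧ H ψ = (E : ℂ) • ψ} with hS
  have h1 : ∀ E : S, ∃ ψ : L2, ‖ψ‖ = 1 ∧ H ψ = ((E : ℝ) : ℂ) • ψ := by
    rintro ⟨E, ψ, h0, h⟩
    have hψ : 0 < ‖ψ‖ := norm_pos_iff.mpr h0
    refine ⟨((‖ψ‖⁻¹ : ℝ) : ℂ) • ψ, ?_, ?_⟩
    · rw [norm_smul, Complex.norm_real, norm_inv, norm_norm, inv_mul_cancel₀ hψ.ne']
    · show H (((‖ψ‖⁻¹ : ℝ) : ℂ) • ψ) = (E : ℂ) • (((‖ψ‖⁻¹ : ℝ) : ℂ) • ψ)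
      rw [map_smul, smul_comm, ← h]
  choose v hv1 hv2 using h1
  have hsym := ContinuousLinearMap.isSelfAdjoint_iff_isSymmetric.mp hH
  have hon : Orthonormal ℂ v := by
    refine ⟨hv1, ?_⟩
    intro E E' hne
    have h2 := hsym (v E) (v E')
    simp only [ContinuousLinearMap.coe_coe, hv2, inner_smul_left, inner_smul_right,
      Complex.conj_ofReal] at h2
    have h3 : (((E : ℝ) : ℂ) - ((E' : ℝ) : ℂ)) * inner ℂ (v E) (v E') = 0 := by
      rw [sub_mul, h2, sub_self]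
    rcases mul_eq_zero.mp h3 with h | h
    · exfalso
      apply hne
      ext
      exact_mod_cast sub_eq_zero.mp h
    · exact h
  have h2 : ∀ n : ℤ, {E : S | v E n ≠ 0}.Countable := by
    intro n
    have h3 := hon.inner_products_summable (lp.single 2 n (1 : ℂ))
    refine h3.countable_support.mono ?_
    intro E hE
    simp only [Function.mem_support, ne_eq]
    rw [lp.inner_single_right]
    simpa using hE
  have h3 : (Set.univ : Set S).Countable := by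
    refine (Set.countable_iUnion h2).mono ?_
    intro E _
    simp only [Set.mem_iUnion, Set.mem_ofPred_eq]
    by_contra hc
    push Not at hc
    have : v E = 0 := by ext n; simpa using hc n
    have h4 := hv1 E
    rw [this, norm_zero] at h4
    exact zero_ne_one h4
  exact Set.countable_coe_iff.mp (Set.countable_univ_iff.mp h3)

lemma norm_sq_eq (ψ : L2) : ‖ψ‖ ^ 2 = ∑' n, ‖ψ n‖ ^ 2 := by
  have h := lp.norm_rpow_eq_tsum (p := 2) (by norm_num) ψ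
  have h2 : ‖ψ‖ ^ 2 = ‖ψ‖ ^ (2 : ℝ≥0∞).toReal := by norm_num
  rw [h2, h]
  congr 1
  ext j
  norm_num

lemma sq_summable (ψ : L2) : Summable fun j => ‖ψ j‖ ^ 2 := by
  refine (summ ψ).congr fun j => ?_
  norm_num

lemma summable_pow_natAbs {θ : ℝ} (h0 : 0 < θ) (h1 : θ < 1) :
    Summable fun j : ℤ => θ ^ j.natAbs := by
  apply Summable.of_nat_of_neg
  · simpa using summable_geometric_of_lt_one h0.le h1
  · simpa using summable_geometric_of_lt_one h0.le h1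

/-- localisation of an approximate eigenvector -/
lemma localise {θ : ℝ} (h0 : 0 < θ) (h1 : θ < 1) : ∃ K : ℝ, ∀ (a c : ℤ → ℝ), (∀ n, 0 ≤ a n) →
    (∀ n, 0 ≤ c n) → Summable a → Summable c → 0 < ∑' n, a n → ∑' n, c n ≤ 2 * ∑' n, a n →
    ∃ n, 0 < a n ∧ ∀ j : ℤ, θ ^ j.natAbs * c (n + j) ≤ K * a n := by
  set W := ∑' j : ℤ, θ ^ j.natAbs with hW
  have hs := summable_pow_natAbs h0 h1
  have hW0 : 0 < W := hs.tsum_pos (fun j => by positivity) 0 (by simp)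
  refine ⟨4 * W, ?_⟩
  intro a c ha hc sa sc hpos hle
  by_contra hcon
  push Not at hcon
  have h2 : ∀ n, ENNReal.ofReal (4 * W) * ENNReal.ofReal (a n) ≤
      ∑' j : ℤ, ENNReal.ofReal (θ ^ j.natAbs) * ENNReal.ofReal (c (n + j)) := by
    intro n
    rcases (ha n).eq_or_lt with h | h
    · rw [← h]; simp
    · obtain ⟨j, hj⟩ := hcon n h
      refine le_trans ?_ (ENNReal.le_tsum j)
      rw [← ENNReal.ofReal_mul (by positivity), ← ENNReal.ofReal_mul (by positivity)]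
      exact ENNReal.ofReal_le_ofReal hj.le
  have h3 := ENNReal.tsum_le_tsum h2
  rw [ENNReal.tsum_mul_left, ENNReal.tsum_comm] at h3
  have h4 : ∀ j : ℤ, ∑' n : ℤ, ENNReal.ofReal (θ ^ j.natAbs) * ENNReal.ofReal (c (n + j)) =
      ENNReal.ofReal (θ ^ j.natAbs) * ENNReal.ofReal (∑' n, c n) := by
    intro j
    rw [ENNReal.tsum_mul_left, ENNReal.ofReal_tsum_of_nonneg hc sc]
    congr 1
    exact (Equiv.addRight j).tsum_eq fun n => ENNReal.ofReal (c n)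
  simp_rw [h4] at h3
  rw [ENNReal.tsum_mul_right, ← ENNReal.ofReal_tsum_of_nonneg (fun j => by positivity) hs,
    ← ENNReal.ofReal_tsum_of_nonneg ha sa, ← ENNReal.ofReal_mul (by positivity),
    ← ENNReal.ofReal_mul hW0.le, ENNReal.ofReal_le_ofReal_iff
      (mul_nonneg hW0.le (tsum_nonneg hc))] at h3
  nlinarith

/-- a point of the spectrum gives almost solutions of subexponential growth -/
lemma exists_local {θ : ℝ} (h0 : 0 < θ) (h1 : θ < 1) : ∃ K : ℝ, ∀ (V : ℤ → ℝ) (C : ℝ)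
    (H : L2 →L[ℂ] L2), (∀ n, |V n| ≤ C) → IsOp V H → ∀ E ∈ rspec H, ∀ ε : ℝ, 0 < ε →
    ∃ (m : ℤ) (y : ℤ → ℝ), y 0 = 1 ∧ (∀ j : ℤ, θ ^ j.natAbs * y j ^ 2 ≤ K) ∧
      ∀ j : ℤ, θ ^ j.natAbs * (y (j + 1) + y (j - 1) + (V (m + j) - E) * y j) ^ 2 ≤ K * ε ^ 2 := by
  obtain ⟨K, hK⟩ := localise h0 h1
  refine ⟨K, ?_⟩
  intro V C H hV hH E hE ε hε
  obtain ⟨ψ, hψ0, hψ⟩ := weyl_of_mem (hH.sa hV) hE hε
  set φ := H ψ - (E : ℂ) • ψ with hφ
  have hψp : 0 < ‖ψ‖ := norm_pos_iff.mpr hψ0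
  have s1 := sq_summable ψ
  have s2 := (sq_summable φ).div_const (ε ^ 2)
  obtain ⟨m, hm0, hm⟩ := hK (fun n => ‖ψ n‖ ^ 2) (fun n => ‖ψ n‖ ^ 2 + ‖φ n‖ ^ 2 / ε ^ 2)
    (fun n => by positivity) (fun n => by positivity) s1 (s1.add s2)
    (by rw [← norm_sq_eq]; positivity) (by
      rw [s1.tsum_add s2, tsum_div_const, ← norm_sq_eq, ← norm_sq_eq]
      have : ‖φ‖ ^ 2 / ε ^ 2 ≤ ‖ψ‖ ^ 2 := by
        rw [div_le_iff₀ (by positivity)]
        calc ‖φ‖ ^ 2 ≤ (ε * ‖ψ‖) ^ 2 := by gcongr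
          _ = _ := by ring
      linarith)
  have hψm : ψ m ≠ 0 := by
    intro h; simp [h] at hm0
  have hnm : 0 < ‖ψ m‖ := norm_pos_iff.mpr hψm
  have key : ∀ z : ℂ, (z / ψ m).re ^ 2 ≤ ‖z‖ ^ 2 / ‖ψ m‖ ^ 2 := by
    intro z
    rw [← div_pow, ← norm_div, ← sq_abs]
    gcongr
    exact Complex.abs_re_le_norm _
  refine ⟨m, fun j => (ψ (m + j) / ψ m).re, by simp [hψm], ?_, ?_⟩
  · intro j
    have h2 := hm j
    have h3 : θ ^ j.natAbs * ‖ψ (m + j)‖ ^ 2 ≤ K * ‖ψ m‖ ^ 2 := by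
      refine le_trans ?_ h2
      gcongr
      have : 0 ≤ ‖φ (m + j)‖ ^ 2 / ε ^ 2 := by positivity
      linarith
    calc θ ^ j.natAbs * (ψ (m + j) / ψ m).re ^ 2
        ≤ θ ^ j.natAbs * (‖ψ (m + j)‖ ^ 2 / ‖ψ m‖ ^ 2) := by gcongr; exact key _
      _ ≤ K := by rw [← mul_div_assoc, div_le_iff₀ (by positivity)]; exact h3
  · intro j
    have h2 := hm j
    have h3 : θ ^ j.natAbs * ‖φ (m + j)‖ ^ 2 ≤ K * ε ^ 2 * ‖ψ m‖ ^ 2 := by
      have h4 : θ ^ j.natAbs * (‖φ (m + j)‖ ^ 2 / ε ^ 2) ≤ K * ‖ψ m‖ ^ 2 := by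
        refine le_trans ?_ h2
        gcongr
        have : 0 ≤ ‖ψ (m + j)‖ ^ 2 := by positivity
        linarith
      rw [← mul_div_assoc, div_le_iff₀ (by positivity)] at h4
      linarith
    have h5 : (ψ (m + (j + 1)) / ψ m).re + (ψ (m + (j - 1)) / ψ m).re +
        (V (m + j) - E) * (ψ (m + j) / ψ m).re = (φ (m + j) / ψ m).re := by
      have h6 : φ (m + j) = ψ (m + (j + 1)) + ψ (m + (j - 1)) +
          ((V (m + j) - E : ℝ) : ℂ) * ψ (m + j) := by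
        rw [hφ, lp.coeFn_sub, Pi.sub_apply, hH, lp.coeFn_smul, Pi.smul_apply, smul_eq_mul,
          ← add_assoc, ← add_sub_assoc]
        push_cast; ring
      rw [h6, add_div, add_div, Complex.add_re, Complex.add_re, mul_div_assoc,
        Complex.re_ofReal_mul]
    rw [h5]
    calc θ ^ j.natAbs * (φ (m + j) / ψ m).re ^ 2
        ≤ θ ^ j.natAbs * (‖φ (m + j)‖ ^ 2 / ‖ψ m‖ ^ 2) := by gcongr; exact key _
      _ ≤ K * ε ^ 2 := by rw [← mul_div_assoc, div_le_iff₀ (by positivity)]; exact h3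

/-- a bounded solution on a long window gives a nearby point of the spectrum -/
lemma near_of_window {V : ℤ → ℝ} {C : ℝ} {H : L2 →L[ℂ] L2} (hV : ∀ n, |V n| ≤ C) (hH : IsOp V H)
    {E : ℝ} {y : ℤ → ℂ} {a b : ℤ} (hab : a < b) {B ε : ℝ} (hε : 0 < ε)
    (hy : ∀ n, a ≤ n → n < b → y (n + 1) + y (n - 1) + (V n : ℂ) * y n = E * y n)
    (hB : ∀ n, ‖y n‖ ≤ B) (hS : (4 * B) ^ 2 < ε ^ 2 * ∑ n ∈ Finset.Ico a b, ‖y n‖ ^ 2) :
    ∃ E' ∈ rspec H, |E' - E| ≤ ε := by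
  have hB0 : 0 ≤ B := (norm_nonneg _).trans (hB 0)
  set f : ℤ → ℂ := fun n => if a ≤ n ∧ n < b then y n else 0 with hf
  have hmem : Memℓp f 2 := by
    apply memℓp_gen
    apply summable_of_hasFiniteSupport
    refine (Set.finite_Ico a b).subset ?_
    intro n hn
    by_contra hc
    apply hn
    have : ¬ (a ≤ n ∧ n < b) := hc
    simp [hf, this]
  obtain ⟨ψ, hψn⟩ : ∃ ψ : L2, ∀ n, ψ n = f n := ⟨⟨f, hmem⟩, fun n => rfl⟩
  have h1 : ∑ n ∈ Finset.Ico a b, ‖y n‖ ^ 2 ≤ ‖ψ‖ ^ 2 := by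
    rw [norm_sq_eq]
    refine le_trans (le_of_eq ?_) ((sq_summable ψ).sum_le_tsum (Finset.Ico a b)
      (fun n _ => by positivity))
    apply Finset.sum_congr rfl
    intro n hn
    rw [hψn, hf]
    simp only [Finset.mem_Ico] at hn
    simp [hn]
  have h2 : H ψ - (E : ℂ) • ψ = lp.single 2 (a - 1) (y a) - lp.single 2 a (y (a - 1)) +
      lp.single 2 b (y (b - 1)) - lp.single 2 (b - 1) (y b) := by
    ext n
    simp only [lp.coeFn_sub, lp.coeFn_add, Pi.sub_apply, Pi.add_apply, hH ψ n, lp.coeFn_smul,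
      Pi.smul_apply, smul_eq_mul, hψn, hf, lp.single_apply, Pi.single_apply]
    by_cases c1 : a ≤ n ∧ n < b
    · have h3 := hy n c1.1 c1.2
      have e1 : n ≠ a - 1 := by omega
      have e2 : n ≠ b := by omega
      rw [if_pos c1, if_neg e1, if_neg e2]
      by_cases c2 : n = a
      · subst c2
        by_cases c3 : n = b - 1
        · have e3 : b = n + 1 := by omega
          subst e3
          rw [if_neg (by omega), if_neg (by omega), if_pos rfl, if_pos (by omega)]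
          linear_combination h3
        · rw [if_pos (by omega), if_neg (by omega), if_pos rfl, if_neg c3]
          linear_combination h3
      · by_cases c3 : n = b - 1
        · have e3 : b = n + 1 := by omega
          subst e3
          rw [if_neg (by omega), if_pos (by omega), if_neg c2, if_pos (by omega)]
          linear_combination h3
        · rw [if_pos (by omega), if_pos (by omega), if_neg c2, if_neg c3]
          linear_combination h3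
    · rw [if_neg c1]
      have e1 : n ≠ a := by omega
      have e2 : n ≠ b - 1 := by omega
      rw [if_neg e1, if_neg e2]
      by_cases c2 : n = a - 1
      · have e3 : a = n + 1 := by omega
        subst e3
        rw [if_pos (by omega), if_neg (by omega), if_pos (by omega), if_neg (by omega)]
        ring
      · by_cases c3 : n = b
        · subst c3
          rw [if_neg (by omega), if_pos (by omega), if_neg c2, if_pos rfl]
          ring
        · rw [if_neg (by omega), if_neg (by omega), if_neg c2, if_neg c3]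
          ring
  have h3 : ‖H ψ - (E : ℂ) • ψ‖ ≤ 4 * B := by
    rw [h2]
    have e : ∀ (i : ℤ) (z : ℂ), ‖(lp.single 2 i z : L2)‖ = ‖z‖ := fun i z =>
      lp.norm_single (p := 2) (E := fun _ : ℤ => ℂ) (by norm_num) i z
    refine (norm_sub_le _ _).trans ?_
    have t1 := norm_add_le (lp.single 2 (a - 1) (y a) - lp.single 2 a (y (a - 1)) : L2)
      (lp.single 2 b (y (b - 1)))
    have t2 := norm_sub_le (lp.single 2 (a - 1) (y a) : L2) (lp.single 2 a (y (a - 1)))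
    rw [e] at t1
    rw [e, e] at t2
    rw [e]
    linarith [hB a, hB (a - 1), hB b, hB (b - 1)]
  have h4 : (4 * B) ^ 2 < (ε * ‖ψ‖) ^ 2 := by
    rw [mul_pow ε]
    refine hS.trans_le ?_
    gcongr
  have h5 : 4 * B < ε * ‖ψ‖ := lt_of_pow_lt_pow_left₀ 2 (by positivity) h4
  refine near_of_weyl (hH.sa hV) (ψ := ψ) ?_ (h3.trans h5.le)
  intro h0
  rw [h0, norm_zero] at h5
  linarith

end Pool.Agent.H416Z.St
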