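import Mathlib

set_option autoImplicit false

namespace Pool.Agent.H416Z.St

open Polynomial ComplexConjugate

section ring

variable {R S : Type*} [CommRing R] [CommRing S]

/-- forward solution of `s (n+2) = c n * s (n+1) - s n` with `s 0 = b`, `s 1 = a` -/
def sol (c : ℕ → R) (a b : R) : ℕ → R
  | 0 => b
  | 1 => a
  | n + 2 => c n * sol c a b (n + 1) - sol c a b n

@[simp] lemma sol_zero (c : ℕ → R) (a b : R) : sol c a b 0 = b := rfl
@[simp] lemma sol_one (c : ℕ → R) (a b : R) : sol c a b 1 = a := rfl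
lemma sol_two (c : ℕ → R) (a b : R) (n : ℕ) :
    sol c a b (n + 2) = c n * sol c a b (n + 1) - sol c a b n := rfl

lemma eq_sol (c : ℕ → R) (s : ℕ → R) (N : ℕ) (h : ∀ n, n + 2 ≤ N → s (n + 2) = c n * s (n + 1) - s n) :
    ∀ n, n ≤ N → s n = sol c (s 1) (s 0) n := by
  intro n
  induction n using Nat.strong_induction_on with
  | _ n ih =>
    match n with
    | 0 => intro _; rfl
    | 1 => intro _; rfl
    | n + 2 =>
      intro hn
      rw [sol_two, h n hn, ← ih (n + 1) (by omega) (by omega), ← ih n (by omega) (by omega)]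

lemma sol_congr {c c' : ℕ → R} (a b : R) (N : ℕ) (h : ∀ n, n + 2 ≤ N → c n = c' n) :
    ∀ n, n ≤ N → sol c a b n = sol c' a b n := by
  intro n hn
  have := eq_sol c' (sol c a b) N (fun n hn => by rw [sol_two, h n hn]) n hn
  simpa using this

lemma sol_lin (c : ℕ → R) (a b : R) (n : ℕ) :
    sol c a b n = a * sol c 1 0 n + b * sol c 0 1 n := by
  have := eq_sol c (fun n => a * sol c 1 0 n + b * sol c 0 1 n) n
    (fun n _ => by simp only [sol_two]; ring) n le_rfl
  simpa using this.symm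

lemma sol_map (φ : R →+* S) (c : ℕ → R) (a b : R) (n : ℕ) :
    φ (sol c a b n) = sol (fun n => φ (c n)) (φ a) (φ b) n := by
  have := eq_sol (fun n => φ (c n)) (fun n => φ (sol c a b n)) n
    (fun n _ => by simp only [sol_two, map_sub, map_mul]) n le_rfl
  simpa using this

lemma sol_shift (c : ℕ → R) (a b : R) (k n : ℕ) :
    sol c a b (n + k) = sol (fun n => c (n + k)) (sol c a b (k + 1)) (sol c a b k) n := by
  have := eq_sol (fun n => c (n + k)) (fun n => sol c a b (n + k)) n
    (fun n _ => by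
      show sol c a b (n + 2 + k) = c (n + k) * sol c a b (n + 1 + k) - sol c a b (n + k)
      rw [show n + 2 + k = n + k + 2 by ring, show n + 1 + k = n + k + 1 by ring, sol_two]) n le_rfl
  simpa [add_comm] using this

lemma wronski (c : ℕ → R) (n : ℕ) :
    sol c 1 0 (n + 1) * sol c 0 1 n - sol c 0 1 (n + 1) * sol c 1 0 n = 1 := by
  induction n with
  | zero => simp
  | succ n ih => rw [sol_two, sol_two]; linear_combination ih

/-- the discriminant (trace of the transfer matrix over `q` steps) -/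
def disc (c : ℕ → R) (q : ℕ) : R := sol c 1 0 (q + 1) + sol c 0 1 q

lemma disc_map (φ : R →+* S) (c : ℕ → R) (q : ℕ) :
    φ (disc c q) = disc (fun n => φ (c n)) q := by
  simp [disc, sol_map]

lemma disc_congr {c c' : ℕ → R} (q : ℕ) (h : ∀ n, n < q → c n = c' n) : disc c q = disc c' q := by
  unfold disc
  rw [sol_congr 1 0 (q + 1) (fun n hn => h n (by omega)) _ le_rfl,
    sol_congr 0 1 (q + 1) (fun n hn => h n (by omega)) _ (by omega)]

lemma disc_succ (c : ℕ → R) (q : ℕ) (h : c q = c 0) : disc (fun n => c (n + 1)) q = disc c q := by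
  have h1 : ∀ n, sol c 1 0 (n + 1) = c 0 * sol (fun n => c (n + 1)) 1 0 n +
      sol (fun n => c (n + 1)) 0 1 n := by
    intro n
    rw [sol_shift c 1 0 1 n, sol_lin]
    simp [sol_two]
  have h2 : ∀ n, sol c 0 1 (n + 1) = -sol (fun n => c (n + 1)) 1 0 n := by
    intro n
    rw [sol_shift c 0 1 1 n, sol_lin]
    simp [sol_two]
  have h3 := h2 (q + 1)
  rw [sol_two, h] at h3
  unfold disc
  linear_combination h3 - h1 q - c 0 * h2 q

lemma disc_shift (c : ℕ → R) (q : ℕ) (h : ∀ n, c (n + q) = c n) (k : ℕ) :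
    disc (fun n => c (n + k)) q = disc c q := by
  induction k with
  | zero => rfl
  | succ k ih =>
    rw [← ih, ← disc_succ (fun n => c (n + k)) q (by simpa [add_comm] using h k)]
    congr 1
    ext n
    congr 1
    ring

/-- Cayley-Hamilton -/
lemma cayley (c : ℕ → R) (q : ℕ) (h : ∀ n, n < q → c (n + q) = c n) (a b : R) :
    sol c a b (q + q + 1) = disc c q * sol c a b (q + 1) - a := by
  have h1 := sol_shift c a b q (q + 1)
  rw [sol_congr (c' := c) _ _ (q + 1) (fun n hn => h n (by omega)) _ le_rfl,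
    sol_lin c (sol c a b (q + 1))] at h1
  rw [show q + q + 1 = q + 1 + q by ring, h1, disc, sol_lin c a b (q + 1), sol_lin c a b q]
  linear_combination (-a) * wronski c q

/-- the transfer matrix over `q` steps is the scalar `e` -/
def Scal (c : ℕ → R) (q : ℕ) (e : R) : Prop :=
  ∀ a b, sol c a b (q + 1) = e * a ∧ sol c a b q = e * b

lemma Scal.succ {c : ℕ → R} {q : ℕ} {e : R} (hs : Scal c q e) (h : c q = c 0) :
    Scal (fun n => c (n + 1)) q e := by
  intro a b
  have h1 : ∀ n, sol c b (c 0 * b - a) (n + 1) = sol (fun n => c (n + 1)) a b n := by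
    intro n
    rw [sol_shift c _ _ 1 n]
    simp [sol_two]
  obtain ⟨h2, h3⟩ := hs b (c 0 * b - a)
  rw [← h1, ← h1, sol_two, h2, h3, h]
  constructor <;> ring

lemma Scal.shift {c : ℕ → R} {q : ℕ} {e : R} (hs : Scal c q e) (h : ∀ n, c (n + q) = c n) (k : ℕ) :
    Scal (fun n => c (n + k)) q e := by
  induction k with
  | zero => exact hs
  | succ k ih =>
    have := ih.succ (by simpa [add_comm] using h k)
    convert this using 3
    ring

lemma Scal.eq {c c' : ℕ → R} {q : ℕ} {e : R} (hs : Scal c (q + 2) e) (hs' : Scal c' (q + 2) e)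
    (h : ∀ n, n < q → c n = c' n) : c q = c' q := by
  have h1 : ∀ a b, c q * sol c a b (q + 1) = c' q * sol c a b (q + 1) := by
    intro a b
    have h2 := (hs a b).2
    have h3 := (hs' a b).2
    rw [sol_two] at h2 h3
    rw [← sol_congr a b (q + 1) (fun n hn => h n (by omega)) _ le_rfl,
      ← sol_congr a b (q + 1) (fun n hn => h n (by omega)) _ (by omega)] at h3
    linear_combination h2 - h3
  have h2 := h1 1 0
  have h3 := h1 0 1
  have h4 := wronski c q
  linear_combination (c' q - c q) * h4 + sol c 0 1 q * h2 - sol c 1 0 q * h3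

end ring

section complex

lemma exists_floquet (c : ℕ → ℂ) (q : ℕ) {ζ : ℂ} (hζ : ζ ^ 2 - disc c q * ζ + 1 = 0) :
    ∃ a b : ℂ, (a ≠ 0 ∨ b ≠ 0) ∧ sol c a b (q + 1) = ζ * a ∧ sol c a b q = ζ * b := by
  have hw := wronski c q
  unfold disc at hζ
  set A := sol c 1 0 (q + 1) with hA
  set B := sol c 0 1 (q + 1) with hB
  set C := sol c 1 0 q with hC
  set D := sol c 0 1 q with hD
  by_cases h1 : B ≠ 0 ∨ ζ - A ≠ 0
  · refine ⟨B, ζ - A, h1, ?_, ?_⟩
    · rw [sol_lin]; ring
    · rw [sol_lin, ← hC, ← hD]; linear_combination -hw - hζ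
  by_cases h2 : ζ - D ≠ 0 ∨ C ≠ 0
  · refine ⟨ζ - D, C, h2, ?_, ?_⟩
    · rw [sol_lin, ← hA, ← hB]; linear_combination -hw - hζ
    · rw [sol_lin]; ring
  push Not at h1 h2
  refine ⟨1, 0, Or.inl one_ne_zero, ?_, ?_⟩
  · rw [← hA]; linear_combination -h1.2
  · rw [← hC, h2.2]; ring

lemma floquet_per (c : ℕ → ℂ) (q : ℕ) (h : ∀ n, c (n + q) = c n) {ζ a b : ℂ}
    (h1 : sol c a b (q + 1) = ζ * a) (h2 : sol c a b q = ζ * b) (n : ℕ) :
    sol c a b (n + q) = ζ * sol c a b n := by
  rw [sol_shift, h1, h2]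
  simp only [h]
  rw [sol_lin, sol_lin c a b]
  ring

/-- roots of the discriminant are real -/
lemma root_real (V : ℕ → ℝ) (q : ℕ) (hq : 2 ≤ q) {z : ℂ} (hz : disc (fun n => z - V n) q = 0) :
    z.im = 0 := by
  obtain ⟨a, b, hab, h1, h2⟩ := exists_floquet (fun n => z - V n) q (ζ := Complex.I)
    (by rw [hz]; simp)
  set s := sol (fun n => z - (V n : ℂ)) a b with hs
  have h3 : ∀ n, (conj (s n) * s (n + 1)).im =
      (conj b * a).im + z.im * ∑ i ∈ Finset.range n, Complex.normSq (s (i + 1)) := by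
    intro n
    induction n with
    | zero => simp [hs]
    | succ n ih =>
      rw [Finset.sum_range_succ, mul_add, ← add_assoc, ← ih, hs, sol_two, ← hs]
      simp [Complex.normSq_apply]
      ring
  have h4 := h3 q
  rw [h1, h2] at h4
  have h5 : (conj (Complex.I * b) * (Complex.I * a)).im = (conj b * a).im := by
    simp
  rw [h5] at h4
  have h6 : z.im * ∑ i ∈ Finset.range q, Complex.normSq (s (i + 1)) = 0 := by linarith
  rcases mul_eq_zero.mp h6 with h | h
  · exact h
  exfalso
  rw [Finset.sum_eq_zero_iff_of_nonneg (fun i _ => Complex.normSq_nonneg _)] at h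
  have h7 := h 0 (by simp; omega)
  have h8 := h 1 (by simp; omega)
  rw [Complex.normSq_eq_zero] at h7 h8
  have ha : a = 0 := by simpa [hs] using h7
  have hb : b = 0 := by
    rw [hs, sol_two] at h8
    simpa [ha] using h8
  rcases hab with h | h
  · exact h ha
  · exact h hb

end complex

section poly

/-- polynomial coefficients -/
noncomputable def pc (V : ℕ → ℝ) (n : ℕ) : ℝ[X] := X - C (V n)

/-- the discriminant as a polynomial in the energy -/
noncomputable def pdisc (V : ℕ → ℝ) (q : ℕ) : ℝ[X] := disc (pc V) q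

lemma eval_sol (V : ℕ → ℝ) (a b E : ℝ) (n : ℕ) :
    (sol (pc V) (C a) (C b) n).eval E = sol (fun n => E - V n) a b n := by
  have := sol_map (evalRingHom E) (pc V) (C a) (C b) n
  simpa [pc] using this

lemma eval_pdisc (V : ℕ → ℝ) (E : ℝ) (q : ℕ) :
    (pdisc V q).eval E = disc (fun n => E - V n) q := by
  have := disc_map (evalRingHom E) (pc V) q
  simpa [pc, pdisc] using this

lemma aeval_pdisc (V : ℕ → ℝ) (z : ℂ) (q : ℕ) :
    aeval z (pdisc V q) = disc (fun n => z - V n) q := by
  have := disc_map (aeval z : ℝ[X] →ₐ[ℝ] ℂ).toRingHom (pc V) q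
  simpa [pc, pdisc] using this

lemma deg_sol (V : ℕ → ℝ) (n : ℕ) :
    ((sol (pc V) 1 0 (n + 1)).Monic ∧ (sol (pc V) 1 0 (n + 1)).natDegree = n ∧
      (sol (pc V) 1 0 n).degree < n) := by
  induction n with
  | zero => simp
  | succ n ih =>
    obtain ⟨h1, h2, h3⟩ := ih
    have h4 : (pc V n * sol (pc V) 1 0 (n + 1)).Monic := (monic_X_sub_C _).mul h1
    have h5 : (pc V n * sol (pc V) 1 0 (n + 1)).natDegree = n + 1 := by
      rw [pc, (monic_X_sub_C _).natDegree_mul h1, natDegree_X_sub_C, h2, add_comm]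
    have h6 : (sol (pc V) 1 0 n).degree < (pc V n * sol (pc V) 1 0 (n + 1)).degree := by
      rw [degree_eq_natDegree h4.ne_zero, h5]
      refine h3.trans ?_
      exact_mod_cast Nat.lt_succ_self n
    refine ⟨?_, ?_, ?_⟩
    · rw [sol_two]; exact h4.sub_of_left h6
    · rw [sol_two, natDegree_eq_of_degree_eq (degree_sub_eq_left_of_degree_lt h6), h5]
    · rw [degree_eq_natDegree h1.ne_zero, h2]
      exact_mod_cast Nat.lt_succ_self n

lemma deg_sol' (V : ℕ → ℝ) (n : ℕ) : (sol (pc V) 0 1 (n + 1)).degree < n := by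
  have h2 : sol (pc V) 0 1 (n + 1) = -sol (pc fun n => V (n + 1)) 1 0 n := by
    rw [sol_shift (pc V) 0 1 1 n, sol_lin]
    simp [sol_two]
    rfl
  rw [h2, degree_neg]
  exact (deg_sol _ n).2.2

lemma pdisc_monic (V : ℕ → ℝ) (q : ℕ) (hq : 1 ≤ q) :
    (pdisc V q).Monic ∧ (pdisc V q).natDegree = q := by
  obtain ⟨q, rfl⟩ : ∃ k, q = k + 1 := ⟨q - 1, by omega⟩
  obtain ⟨h1, h2, -⟩ := deg_sol V (q + 1)
  have h3 : (sol (pc V) 0 1 (q + 1)).degree < (sol (pc V) 1 0 (q + 1 + 1)).degree := by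
    rw [degree_eq_natDegree h1.ne_zero, h2]
    refine (deg_sol' V q).trans ?_
    exact_mod_cast Nat.lt_succ_self q
  exact ⟨h1.add_of_left h3, by rw [pdisc, disc, natDegree_add_eq_left_of_degree_lt h3, h2]⟩

lemma deriv_wronski (V : ℕ → ℝ) (a b a' b' : ℝ) (n : ℕ) :
    derivative (sol (pc V) (C a) (C b) (n + 1)) * sol (pc V) (C a') (C b') n -
      derivative (sol (pc V) (C a) (C b) n) * sol (pc V) (C a') (C b') (n + 1) =
      ∑ i ∈ Finset.range n, sol (pc V) (C a) (C b) (i + 1) * sol (pc V) (C a') (C b') (i + 1) := by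
  induction n with
  | zero => simp
  | succ n ih =>
    rw [Finset.sum_range_succ, ← ih, sol_two, sol_two]
    simp [pc]
    ring

lemma deriv_pdisc (V : ℕ → ℝ) (q : ℕ) :
    derivative (pdisc V q) = ∑ i ∈ Finset.range q,
      (-sol (pc V) 0 1 (q + 1) * sol (pc V) 1 0 (i + 1) ^ 2 +
        (sol (pc V) 1 0 (q + 1) - sol (pc V) 0 1 q) *
          (sol (pc V) 1 0 (i + 1) * sol (pc V) 0 1 (i + 1)) +
        sol (pc V) 1 0 q * sol (pc V) 0 1 (i + 1) ^ 2) := by
  have h1 := deriv_wronski V 1 0 1 0 q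
  have h2 := deriv_wronski V 1 0 0 1 q
  have h3 := deriv_wronski V 0 1 1 0 q
  have h4 := deriv_wronski V 0 1 0 1 q
  have hw := wronski (pc V) q
  simp only [map_one, map_zero] at h1 h2 h3 h4
  rw [Finset.sum_add_distrib, Finset.sum_add_distrib, ← Finset.mul_sum, ← Finset.mul_sum,
    ← Finset.mul_sum]
  simp only [sq]
  have h5 : ∑ i ∈ Finset.range q, sol (pc V) 0 1 (i + 1) * sol (pc V) 1 0 (i + 1) =
      ∑ i ∈ Finset.range q, sol (pc V) 1 0 (i + 1) * sol (pc V) 0 1 (i + 1) :=
    Finset.sum_congr rfl fun i _ => mul_comm _ _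
  rw [h5] at h3
  rw [pdisc, disc, derivative_add]
  linear_combination (-sol (pc V) 0 1 (q + 1)) * h1 + sol (pc V) 1 0 (q + 1) * h2 -
    sol (pc V) 0 1 q * h3 + sol (pc V) 1 0 q * h4 -
    (derivative (sol (pc V) 1 0 (q + 1)) + derivative (sol (pc V) 0 1 q)) * hw

/-- a critical point of the discriminant inside the spectrum is a closed gap -/
lemma scal_of_crit (V : ℕ → ℝ) (q : ℕ) (hq : 2 ≤ q) (E : ℝ) (h1 : ((pdisc V q).eval E) ^ 2 ≤ 4)
    (h2 : (derivative (pdisc V q)).eval E = 0) : ∃ e, Scal (fun n => E - V n) q e := by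
  rw [deriv_pdisc, eval_finsetSum] at h2
  have e1 : ∀ n, (sol (pc V) 1 0 n).eval E = sol (fun n => E - V n) 1 0 n := fun n => by
    simpa using eval_sol V 1 0 E n
  have e2 : ∀ n, (sol (pc V) 0 1 n).eval E = sol (fun n => E - V n) 0 1 n := fun n => by
    simpa using eval_sol V 0 1 E n
  simp only [eval_add, eval_mul, eval_neg, eval_pow, eval_sub, e1, e2] at h2
  rw [eval_pdisc, disc] at h1
  have hw := wronski (fun n => E - V n) q
  set u := sol (fun n => E - V n) 1 0 with hu
  set v := sol (fun n => E - V n) 0 1 with hv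
  have hd : (u (q + 1) - v q) ^ 2 ≤ 4 * (-v (q + 1)) * u q := by nlinarith
  have h3 : ∑ i ∈ Finset.range q, (-v (q + 1)) * (-v (q + 1) * u (i + 1) ^ 2 +
      (u (q + 1) - v q) * (u (i + 1) * v (i + 1)) + u q * v (i + 1) ^ 2) = 0 := by
    rw [← Finset.mul_sum, h2, mul_zero]
  rw [Finset.sum_eq_zero_iff_of_nonneg] at h3
  · have h4 := h3 0 (by simp; omega)
    have hA : v (q + 1) = 0 := by
      have : u 1 = 1 := rfl
      have : v 1 = 0 := rfl
      simp only [zero_add, *] at h4
      simpa using h4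
    have hB : u (q + 1) - v q = 0 := by
      rw [hA] at hd
      have : (u (q + 1) - v q) ^ 2 = 0 := le_antisymm (by simpa using hd) (sq_nonneg _)
      simpa using this
    have hC : u q = 0 := by
      simp only [hA, hB, neg_zero, zero_mul, zero_add] at h2
      rw [← Finset.mul_sum] at h2
      rcases mul_eq_zero.mp h2 with h | h
      · exact h
      rw [Finset.sum_eq_zero_iff_of_nonneg (fun i _ => sq_nonneg _)] at h
      have h5 := h 1 (by simp; omega)
      rw [hv, sol_two] at h5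
      simp at h5
    refine ⟨v q, fun a b => ?_⟩
    rw [sol_lin _ a b, sol_lin _ a b q, ← hu, ← hv, hA, hC]
    constructor
    · linear_combination a * hB
    · ring
  · intro i _
    nlinarith [sq_nonneg (2 * (-v (q + 1)) * u (i + 1) + (u (q + 1) - v q) * v (i + 1)),
      mul_nonneg (sub_nonneg.mpr hd) (sq_nonneg (v (i + 1)))]

/-- if no gap is closed there are `q` roots of the discriminant separated by gaps -/
lemma exists_roots (V : ℕ → ℝ) (q : ℕ) (hq : 2 ≤ q)
    (hs : ∀ E e : ℝ, ¬ Scal (fun n => E - V n) q e) :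
    ∃ T : Finset ℝ, T.card = q ∧ (∀ r ∈ T, (pdisc V q).eval r = 0) ∧
      ∀ r ∈ T, ∀ r' ∈ T, r < r' → ∃ x, r < x ∧ x < r' ∧ 4 < ((pdisc V q).eval x) ^ 2 := by
  obtain ⟨hm, hd⟩ := pdisc_monic V q (by omega)
  set P := pdisc V q with hP
  have hcrit : ∀ E, (derivative P).eval E = 0 → 4 < (P.eval E) ^ 2 := by
    intro E hE
    by_contra hc
    push Not at hc
    obtain ⟨e, he⟩ := scal_of_crit V q hq E hc hE
    exact hs E e he
  have hsplit : P.Splits := by
    refine Splits.of_splits_map (algebraMap ℝ ℂ) (IsAlgClosed.splits _) ?_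
    intro z hz
    have hz2 : aeval z P = 0 := by
      rw [mem_roots (hm.map _).ne_zero, IsRoot.def, eval_map_algebraMap] at hz
      exact hz
    rw [hP, aeval_pdisc] at hz2
    have := root_real V q hq hz2
    exact ⟨z.re, by apply Complex.ext <;> simp [this]⟩
  have hcard : P.roots.card = q := by rw [← hd]; exact hsplit.natDegree_eq_card_roots.symm
  have hnd : P.roots.Nodup := by
    rw [Multiset.nodup_iff_count_le_one]
    intro r
    rw [count_roots]
    by_contra hc
    push Not at hc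
    rw [one_lt_rootMultiplicity_iff_isRoot hm.ne_zero] at hc
    have := hcrit r hc.2
    rw [hc.1.eq_zero] at this
    norm_num at this
  refine ⟨P.roots.toFinset, by rw [Multiset.toFinset_card_of_nodup hnd, hcard], ?_, ?_⟩
  · intro r hr
    rw [Multiset.mem_toFinset, mem_roots hm.ne_zero] at hr
    exact hr
  · intro r hr r' hr' hlt
    rw [Multiset.mem_toFinset, mem_roots hm.ne_zero] at hr hr'
    obtain ⟨x, hx, hx2⟩ := exists_deriv_eq_zero (f := fun x => P.eval x) hlt
      P.continuous.continuousOn (by rw [hr.eq_zero, hr'.eq_zero])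
    rw [Polynomial.deriv] at hx2
    exact ⟨x, hx.1, hx.2, hcrit x hx2⟩

end poly

end Pool.Agent.H416Z.St
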