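import Mathlib
import Pool.Agent.H416Z.StOp
import Pool.Agent.H416Z.StSol

set_option autoImplicit false

namespace Pool.Agent.H416Z.St

open Polynomial Filter Topology

/-- periodic word with integer phase `r` -/
noncomputable def wd (lam : ℝ) (p q : ℕ) (r j : ℤ) : ℝ :=
  lam * ((((j + 1) * p + r) / q - (j * p + r) / q : ℤ) : ℝ)

/-- the standard periodic word -/
noncomputable def W0 (lam : ℝ) (p q : ℕ) (n : ℕ) : ℝ := wd lam p q 0 n

lemma wd_shift (lam : ℝ) (p q : ℕ) (hq : 0 < q) (r J t j : ℤ) (h : J * p + r = q * t) :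
    wd lam p q r (J + j) = wd lam p q 0 j := by
  have hq' : (q : ℤ) ≠ 0 := by omega
  unfold wd
  have e1 : (J + j + 1) * p + r = ((j + 1) * p + 0) + q * t := by rw [← h]; ring
  have e2 : (J + j) * p + r = (j * p + 0) + q * t := by rw [← h]; ring
  rw [e1, e2, Int.add_mul_ediv_left _ _ hq', Int.add_mul_ediv_left _ _ hq']
  congr 2
  ring

lemma W0_per (lam : ℝ) (p q : ℕ) (hq : 0 < q) (n : ℕ) : W0 lam p q (n + q) = W0 lam p q n := by
  have := wd_shift lam p q hq 0 q p n (by ring)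
  unfold W0
  rw [← this]
  congr 1
  push_cast; ring

lemma exists_start (lam : ℝ) {p q : ℕ} (hq : 0 < q) (hc : Nat.Coprime p q) (r J0 : ℤ) :
    ∃ J, J0 ≤ J ∧ J < J0 + q ∧ ∀ n : ℕ, wd lam p q r (J + n) = W0 lam p q n := by
  obtain ⟨u, v, huv⟩ : IsCoprime (p : ℤ) (q : ℤ) := Nat.isCoprime_iff_coprime.mpr hc
  have hq' : (0 : ℤ) < q := by omega
  set x := -r * u - J0 with hx
  refine ⟨J0 + x % q, by have := Int.emod_nonneg x hq'.ne'; omega,
    by have := Int.emod_lt_of_pos x hq'; omega, fun n => ?_⟩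
  refine wd_shift lam p q hq r _ (r * v - (x / q) * p) n ?_
  have h1 := Int.emod_add_mul_ediv x q
  have h2 : x % q = x - q * (x / q) := by linarith
  rw [h2, hx]
  linear_combination (-r) * huv

lemma exists_shift (lam : ℝ) {p q : ℕ} (hq : 0 < q) (hc : Nat.Coprime p q) (r j : ℤ) :
    ∃ k : ℕ, ∀ n : ℕ, wd lam p q r (j + n) = W0 lam p q (n + k) := by
  obtain ⟨J, h1, h2, h3⟩ := exists_start lam hq hc r (j - q)
  refine ⟨(j - J).toNat, fun n => ?_⟩
  rw [← h3]
  congr 1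
  push_cast
  omega

lemma not_scal {lam : ℝ} (hl : lam ≠ 0) {p q : ℕ} (hq : 2 ≤ q) (hc : Nat.Coprime p q) (E e : ℝ) :
    ¬ Scal (fun n => E - W0 lam p q n) q e := by
  intro hs
  have hq0 : 0 < q := by omega
  have hq' : (0 : ℤ) < q := by omega
  have hper : ∀ n, (fun n => E - W0 lam p q n) (n + q) = (fun n => E - W0 lam p q n) n :=
    fun n => by simp only [W0_per lam p q hq0]
  obtain ⟨k, hk⟩ := exists_shift lam hq0 hc (p - 1) 0
  obtain ⟨k', hk'⟩ := exists_shift lam hq0 hc p 0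
  have h1 := hs.shift hper k
  have h2 := hs.shift hper k'
  simp only [← hk, ← hk', zero_add] at h1 h2
  have nd : ∀ x : ℤ, ¬ (q : ℤ) ∣ x → (x - 1) / q = x / q := by
    intro x hx
    have h3 := Int.emod_add_mul_ediv x q
    have h4 := Int.emod_nonneg x hq'.ne'
    have h5 := Int.emod_lt_of_pos x hq'
    have h6 : x % q ≠ 0 := fun h => hx (Int.dvd_of_emod_eq_zero h)
    exact ((Int.ediv_emod_unique (a := x - 1) (r := x % q - 1) (q := x / q) hq').mpr
      ⟨by linarith, by omega, by omega⟩).1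
  have nd2 : ∀ j : ℤ, 0 ≤ j → j + 2 ≤ q → (j * p + (p - 1)) / q = (j * p + p) / q := by
    intro j h0 hj
    rw [← nd (j * p + p)]
    · congr 1; ring
    · intro h
      have h3 : (q : ℤ) ∣ (j + 1) * p := by rwa [add_mul, one_mul]
      have h4 : (q : ℤ) ∣ j + 1 :=
        (Nat.isCoprime_iff_coprime.mpr hc).symm.dvd_of_dvd_mul_right h3
      have := Int.le_of_dvd (by omega) h4
      omega
  obtain ⟨q, rfl⟩ : ∃ m, q = m + 2 := ⟨q - 2, by omega⟩
  have h3 := h1.eq h2 (by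
    intro n hn
    unfold wd
    rw [nd2 n (by omega) (by push_cast; omega), nd2 (n + 1) (by omega) (by push_cast; omega)])
  unfold wd at h3
  rw [nd2 q (by omega) (by push_cast; omega)] at h3
  have e1 : (((q : ℤ) + 1) * p + p) / ((q + 2 : ℕ) : ℤ) = p := by
    have : ((q : ℤ) + 1) * p + p = ((q + 2 : ℕ) : ℤ) * p := by push_cast; ring
    rw [this, Int.mul_ediv_cancel_left _ hq'.ne']
  have e2 : (((q : ℤ) + 1) * p + (p - 1)) / ((q + 2 : ℕ) : ℤ) = p - 1 :=
    ((Int.ediv_emod_unique (r := q + 1) (q := p - 1) hq').mpr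
      ⟨by push_cast; ring, by omega, by push_cast; omega⟩).1
  rw [e1, e2] at h3
  push_cast at h3
  apply hl
  linarith

/-- the discriminant of the standard periodic word -/
noncomputable def PD (lam : ℝ) (p q : ℕ) : ℝ[X] := pdisc (W0 lam p q) q

lemma cayley_int (lam : ℝ) {p q : ℕ} (hq : 0 < q) (hc : Nat.Coprime p q) {V y : ℤ → ℝ} {E : ℝ}
    (hy : ∀ j, y (j + 1) + y (j - 1) + (V j - E) * y j = 0) (r j : ℤ)
    (hV : ∀ n : ℕ, n < q + q → V (j + n) = wd lam p q r (j + n)) :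
    y (j + (q + q)) = (PD lam p q).eval E * y (j + q) - y j := by
  obtain ⟨k, hk⟩ := exists_shift lam hq hc r j
  have hper : ∀ n, (fun n => E - W0 lam p q n) (n + q) = (fun n => E - W0 lam p q n) n :=
    fun n => by simp only [W0_per lam p q hq]
  have h1 := eq_sol (fun n => E - W0 lam p q (n + k)) (fun n => y (j + n - 1)) (q + q + 1) (by
    intro n hn
    have h2 := hy (j + n)
    rw [hV n (by omega), hk] at h2
    push_cast
    rw [show j + ((n : ℤ) + 2) - 1 = j + n + 1 by ring, show j + ((n : ℤ) + 1) - 1 = j + n by ring]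
    linear_combination h2)
  have h2 := cayley (fun n => E - W0 lam p q (n + k)) q (fun n _ => by
    simp only [show n + q + k = n + k + q by ring, W0_per lam p q hq])
    (y (j + (1 : ℕ) - 1)) (y (j + (0 : ℕ) - 1))
  rw [← h1 _ le_rfl, ← h1 _ (by omega), disc_shift (fun n => E - W0 lam p q n) q hper k,
    ← eval_pdisc] at h2
  push_cast at h2
  rw [show j + ((q : ℤ) + q + 1) - 1 = j + (q + q) by ring,
    show j + ((q : ℤ) + 1) - 1 = j + q by ring, show j + 1 - 1 = j by ring] at h2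
  exact h2

lemma decay {q : ℕ} (hq : 0 < q) {D : ℝ} (hD : 4 < D ^ 2) : ∃ θ : ℝ, 0 < θ ∧ θ < 1 ∧
    ∀ (a : ℕ → ℝ) (K : ℝ) (J : ℕ), (∀ i, θ ^ i * a i ^ 2 ≤ K) →
      (∀ i, J ≤ i → a (i + (q + q)) = D * a (i + q) - a i) → Summable fun i => a i ^ 2 := by
  obtain ⟨μ, hμ, hμ1⟩ : ∃ μ : ℝ, μ ^ 2 - D * μ + 1 = 0 ∧ 1 < μ ^ 2 := by
    have h1 : 0 < Real.sqrt (D ^ 2 - 4) := Real.sqrt_pos.mpr (by linarith)
    have h2 : Real.sqrt (D ^ 2 - 4) ^ 2 = D ^ 2 - 4 := Real.sq_sqrt (by linarith)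
    rcases le_total 0 D with h | h
    · refine ⟨(D + Real.sqrt (D ^ 2 - 4)) / 2, by nlinarith, by nlinarith⟩
    · refine ⟨(D - Real.sqrt (D ^ 2 - 4)) / 2, by nlinarith, by nlinarith⟩
  set ν := μ ^ 2 with hν
  have hν0 : 0 < ν := by linarith
  have hμ0 : μ ≠ 0 := by
    intro h; rw [h] at hν; norm_num [hν] at hμ1
  have hi : ν⁻¹ < 1 := inv_lt_one_of_one_lt₀ hμ1
  have hi0 : 0 < ν⁻¹ := by positivity
  have hq1 : (1 : ℝ) ≤ q := by exact_mod_cast hq
  set δ := (1 - ν⁻¹) / (2 * q) with hδ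
  have hδ0 : 0 < δ := by apply div_pos <;> linarith
  have hδq : q * δ = (1 - ν⁻¹) / 2 := by rw [hδ]; field_simp
  have hδ1 : δ < 1 := by nlinarith
  have hθ : 1 < (1 - δ) ^ q * ν := by
    have h1 := one_add_mul_le_pow (a := -δ) (by linarith) q
    have h2 : ν⁻¹ < (1 - δ) ^ q := by
      rw [sub_eq_add_neg]; nlinarith
    have := mul_lt_mul_of_pos_right h2 hν0
    rwa [inv_mul_cancel₀ hν0.ne'] at this
  refine ⟨1 - δ, by linarith, by linarith, ?_⟩
  set θ := 1 - δ with hθd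
  have hθ0 : 0 < θ := by linarith
  have hθ1 : θ ≤ 1 := by linarith
  intro a K J hK ha
  set b : ℕ → ℝ := fun i => μ * a (i + q) - a i with hb
  have h1 : ∀ i, J ≤ i → b (i + q) = μ * b i := by
    intro i hi
    simp only [hb]
    rw [add_assoc, ha i hi]
    linear_combination (-a (i + q)) * hμ
  have h2 : ∀ t i, J ≤ i → b (i + t * q) ^ 2 = ν ^ t * b i ^ 2 := by
    intro t i hi
    induction t with
    | zero => simp
    | succ t ih =>
      rw [show i + (t + 1) * q = i + t * q + q by ring, h1 _ (by omega), mul_pow, ih, ← hν]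
      ring
  have h3 : ∀ i, θ ^ (i + q) * b i ^ 2 ≤ 2 * ν * K + 2 * K := by
    intro i
    have h4 := hK (i + q)
    have h5 := hK i
    have h6 : θ ^ (i + q) * a i ^ 2 ≤ θ ^ i * a i ^ 2 := by
      apply mul_le_mul_of_nonneg_right _ (sq_nonneg _)
      exact pow_le_pow_of_le_one hθ0.le hθ1 (by omega)
    have h7 : b i ^ 2 ≤ 2 * ν * a (i + q) ^ 2 + 2 * a i ^ 2 := by
      simp only [hb, hν]
      nlinarith [sq_nonneg (μ * a (i + q) + a i)]
    have h8 : 0 < θ ^ (i + q) := by positivity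
    calc θ ^ (i + q) * b i ^ 2 ≤ θ ^ (i + q) * (2 * ν * a (i + q) ^ 2 + 2 * a i ^ 2) := by gcongr
      _ = 2 * ν * (θ ^ (i + q) * a (i + q) ^ 2) + 2 * (θ ^ (i + q) * a i ^ 2) := by ring
      _ ≤ 2 * ν * K + 2 * K := by gcongr; exact h6.trans h5
  have h4 : ∀ i, J ≤ i → b i = 0 := by
    intro i hi
    by_contra hc
    have h5 : 0 < θ ^ (i + q) * b i ^ 2 := by positivity
    obtain ⟨t, ht⟩ := pow_unbounded_of_one_lt ((2 * ν * K + 2 * K) / (θ ^ (i + q) * b i ^ 2)) hθ
    rw [div_lt_iff₀ h5] at ht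
    have h6 := h3 (i + t * q)
    rw [h2 t i hi] at h6
    have h7 : θ ^ (i + t * q + q) * (ν ^ t * b i ^ 2) =
        (θ ^ q * ν) ^ t * (θ ^ (i + q) * b i ^ 2) := by ring
    linarith
  have h5 : ∀ i, a (i + J + q) ^ 2 = ν⁻¹ * a (i + J) ^ 2 := by
    intro i
    have h6 := h4 (i + J) (by omega)
    simp only [hb] at h6
    have h7 : a (i + J) = μ * a (i + J + q) := by linarith
    rw [h7, mul_pow, ← hν, ← mul_assoc, inv_mul_cancel₀ hν0.ne', one_mul]
  rw [← summable_nat_add_iff J]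
  refine summable_of_sum_range_le (c := (∑ i ∈ Finset.range q, a (i + J) ^ 2) / (1 - ν⁻¹))
    (fun i => sq_nonneg _) fun n => ?_
  rw [le_div_iff₀ (by linarith)]
  have h6 : ∑ i ∈ Finset.range (q + n), a (i + J) ^ 2 =
      ∑ i ∈ Finset.range q, a (i + J) ^ 2 + ν⁻¹ * ∑ i ∈ Finset.range n, a (i + J) ^ 2 := by
    rw [Finset.sum_range_add, Finset.mul_sum]
    congr 1
    apply Finset.sum_congr rfl
    intro i _
    rw [← h5]
    congr 2
    ring
  have h7 : ∑ i ∈ Finset.range n, a (i + J) ^ 2 ≤ ∑ i ∈ Finset.range (q + n), a (i + J) ^ 2 :=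
    Finset.sum_le_sum_of_subset_of_nonneg (Finset.range_mono (by omega)) fun i _ _ => sq_nonneg _
  linarith

lemma countable_sol {V : ℤ → ℝ} {C : ℝ} (hV : ∀ n, |V n| ≤ C) :
    {E : ℝ | ∃ y : ℤ → ℝ, y 0 = 1 ∧ Summable (fun j => y j ^ 2) ∧
      ∀ j, y (j + 1) + y (j - 1) + (V j - E) * y j = 0}.Countable := by
  obtain ⟨H, hH⟩ := exists_op hV
  refine (countable_eig (hH.sa hV)).mono ?_
  rintro E ⟨y, h0, hs, hy⟩
  have hmem : Memℓp (fun j => (y j : ℂ)) 2 := by
    apply memℓp_gen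
    refine hs.congr fun j => ?_
    norm_num
  obtain ⟨ψ, hψn⟩ : ∃ ψ : L2, ∀ n, ψ n = y n := ⟨⟨_, hmem⟩, fun n => rfl⟩
  refine ⟨ψ, ?_, ?_⟩
  · intro h
    have := hψn 0
    rw [h, h0] at this
    simp at this
  · ext n
    rw [hH, lp.coeFn_smul, Pi.smul_apply, smul_eq_mul, hψn, hψn, hψn]
    have := congrArg (fun x : ℝ => (x : ℂ)) (hy n)
    push_cast at this
    linear_combination this

lemma near_of_periodic (W : ℕ → ℝ) {q : ℕ} (hq : 2 ≤ q) (hW : ∀ n, W (n + q) = W n) {E : ℝ}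
    (hE : ((pdisc W q).eval E) ^ 2 ≤ 4) {ε : ℝ} (hε : 0 < ε) : ∃ N : ℕ, ∀ (V : ℤ → ℝ) (C : ℝ)
      (H : L2 →L[ℂ] L2) (m : ℤ), (∀ n, |V n| ≤ C) → IsOp V H →
      (∀ n : ℕ, n < N → V (m + n) = W n) → ∃ E' ∈ rspec H, |E' - E| ≤ ε := by
  set D := (pdisc W q).eval E with hD
  set c : ℕ → ℂ := fun n => (E : ℂ) - W n with hc
  have hDc : disc c q = D := by
    rw [hD, ← aeval_pdisc, ← Complex.coe_algebraMap, aeval_algebraMap_apply, coe_aeval_eq_eval]
  have h2 : Real.sqrt (4 - D ^ 2) ^ 2 = 4 - D ^ 2 := Real.sq_sqrt (by linarith)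
  generalize Real.sqrt (4 - D ^ 2) = w at h2
  set ζ : ℂ := ⟨D / 2, w / 2⟩ with hζ
  have hζ1 : ζ ^ 2 - disc c q * ζ + 1 = 0 := by
    rw [hDc]
    apply Complex.ext
    · simp [hζ, sq]; nlinarith
    · simp [hζ, sq]; ring
  have hζ2 : ‖ζ‖ = 1 := by
    have : Complex.normSq ζ = 1 := by
      simp [hζ, Complex.normSq_apply]; nlinarith
    rw [Complex.normSq_eq_norm_sq] at this
    nlinarith [norm_nonneg ζ]
  obtain ⟨a, b, hab, h3, h4⟩ := exists_floquet c q hζ1
  have hper := floquet_per c q (fun n => by simp only [hc, hW]) h3 h4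
  set s := sol c a b with hs
  have h5 : ∀ n, ‖s (n + q)‖ = ‖s n‖ := fun n => by rw [hper, norm_mul, hζ2, one_mul]
  set B := ∑ i ∈ Finset.range q, ‖s i‖ with hB
  have h6 : ∀ n, ‖s n‖ ≤ B := by
    intro n
    induction n using Nat.strong_induction_on with
    | _ n ih =>
      by_cases h : n < q
      · exact Finset.single_le_sum (f := fun i => ‖s i‖) (fun i _ => norm_nonneg _)
          (Finset.mem_range.mpr h)
      · obtain ⟨k, rfl⟩ : ∃ k, n = k + q := ⟨n - q, by omega⟩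
        rw [h5]; exact ih k (by omega)
  set S := ∑ i ∈ Finset.range q, ‖s (i + 1)‖ ^ 2 with hS
  have hS0 : 0 < S := by
    by_contra hcon
    have h7 : S = 0 := le_antisymm (not_lt.mp hcon) (Finset.sum_nonneg fun i _ => sq_nonneg _)
    rw [hS, Finset.sum_eq_zero_iff_of_nonneg (fun i _ => sq_nonneg _)] at h7
    have h8 := h7 0 (by simp; omega)
    have h9 := h7 1 (by simp; omega)
    have ha : a = 0 := by simpa [hs] using h8
    have hb : b = 0 := by
      rw [hs, sol_two] at h9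
      simpa [ha] using h9
    rcases hab with h | h
    · exact h ha
    · exact h hb
  have h7 : ∀ t : ℕ, ∑ i ∈ Finset.range (t * q), ‖s (i + 1)‖ ^ 2 = t * S := by
    intro t
    induction t with
    | zero => simp
    | succ t ih =>
      rw [show (t + 1) * q = q + t * q by ring, Finset.sum_range_add, ← hS]
      have : ∑ i ∈ Finset.range (t * q), ‖s (q + i + 1)‖ ^ 2 =
          ∑ i ∈ Finset.range (t * q), ‖s (i + 1)‖ ^ 2 := by
        apply Finset.sum_congr rfl
        intro i _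
        rw [show q + i + 1 = i + 1 + q by ring, h5]
      rw [this, ih]; push_cast; ring
  obtain ⟨t, ht⟩ := exists_nat_gt ((4 * B) ^ 2 / (ε ^ 2 * S))
  rw [div_lt_iff₀ (by positivity)] at ht
  have ht0 : 0 < t := by
    rcases Nat.eq_zero_or_pos t with h | h
    · rw [h] at ht; simp at ht; nlinarith [sq_nonneg (4 * B)]
    · exact h
  refine ⟨t * q, fun V C H m hV hH hw => ?_⟩
  have htq : 0 < t * q := by positivity
  refine near_of_window hV hH (y := fun j => s (j - m + 1).toNat) (a := m) (b := m + (t * q : ℕ))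
    (by omega) hε ?_ (fun n => h6 _) ?_
  · intro n h8 h9
    obtain ⟨k, rfl⟩ : ∃ k : ℕ, n = m + k := ⟨(n - m).toNat, by omega⟩
    have e1 : (m + k + 1 - m + 1).toNat = k + 2 := by omega
    have e2 : (m + k - 1 - m + 1).toNat = k := by omega
    have e3 : (m + k - m + 1).toNat = k + 1 := by omega
    simp only [e1, e2, e3]
    rw [hw k (by omega), hs, sol_two]
    simp only [hc]
    ring
  · have h8 : ∑ n ∈ Finset.Ico m (m + (t * q : ℕ)), ‖s (n - m + 1).toNat‖ ^ 2 =
        ∑ i ∈ Finset.range (t * q), ‖s (i + 1)‖ ^ 2 := by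
      symm
      refine Finset.sum_bij (fun i _ => m + (i : ℤ)) ?_ ?_ ?_ ?_
      · intro i hi
        simp only [Finset.mem_range] at hi
        simp only [Finset.mem_Ico]
        omega
      · intro i _ j _ h
        omega
      · intro n hn
        simp only [Finset.mem_Ico] at hn
        exact ⟨(n - m).toNat, by simp only [Finset.mem_range]; omega, by omega⟩
      · intro i _
        congr 3
        omega
    rw [h8, h7]
    linarith

end Pool.Agent.H416Z.St
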