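import Mathlib
import Pool.Agent.H416Z.StWord

set_option autoImplicit false

namespace Pool.Agent.H416Z.St

open Polynomial Filter Topology

/-- the Sturmian potential -/
noncomputable def stV (lam α ω : ℝ) (n : ℤ) : ℝ :=
  if 1 - α ≤ Int.fract ((n : ℝ) * α + ω) then lam else 0

lemma stV_abs (lam α ω : ℝ) (n : ℤ) : |stV lam α ω n| ≤ |lam| := by
  unfold stV
  split_ifs <;> simp

lemma stV_shift (lam α ω : ℝ) (m j : ℤ) :
    stV lam α ω (m + j) = stV lam α (Int.fract (m * α + ω)) j := by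
  unfold stV
  have : Int.fract (((m + j : ℤ) : ℝ) * α + ω) = Int.fract (j * α + Int.fract (m * α + ω)) := by
    rw [Int.fract_eq_fract]
    refine ⟨⌊m * α + ω⌋, ?_⟩
    unfold Int.fract
    push_cast
    ring
  rw [this]

lemma stV_floor (lam : ℝ) {α : ℝ} (h0 : 0 < α) (h1 : α < 1) (ω : ℝ) (n : ℤ) :
    stV lam α ω n = lam * ((⌊((n + 1 : ℤ) : ℝ) * α + ω⌋ - ⌊(n : ℝ) * α + ω⌋ : ℤ) : ℝ) := by
  unfold stV
  set x := (n : ℝ) * α + ω with hx
  have e : ((n + 1 : ℤ) : ℝ) * α + ω = x + α := by rw [hx]; push_cast; ring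
  rw [e]
  have h2 := Int.fract_nonneg x
  have h3 := Int.fract_lt_one x
  have h4 := Int.floor_add_fract x
  split_ifs with h
  · have : ⌊x + α⌋ = ⌊x⌋ + 1 := by
      rw [Int.floor_eq_iff]; push_cast; constructor <;> linarith
    rw [this]; simp
  · have : ⌊x + α⌋ = ⌊x⌋ := by
      rw [Int.floor_eq_iff]; push Not at h; constructor <;> linarith
    rw [this]; simp

lemma floor_rho {p q : ℕ} (hq : 0 < q) (α ω : ℝ) (j : ℤ) :
    ⌊(j : ℝ) * α + ω⌋ = (j * p + ⌊q * ω + j * (q * α - p)⌋) / q := by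
  have hq' : (q : ℝ) ≠ 0 := by positivity
  have h1 : (j : ℝ) * α + ω = (((j * p : ℤ) : ℝ) + (q * ω + j * (q * α - p))) / q := by
    push_cast; field_simp; ring
  rw [h1, Int.floor_div_natCast, Int.floor_intCast_add]

/-- the potential attached to a phase function -/
noncomputable def Vr (lam : ℝ) (p q : ℕ) (ρ : ℤ → ℤ) (j : ℤ) : ℝ :=
  lam * ((((j + 1) * p + ρ (j + 1)) / q - (j * p + ρ j) / q : ℤ) : ℝ)

/-- eventually constant in both directions -/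
def EC (ρ : ℤ → ℤ) : Prop := ∃ J r r' : ℤ, (∀ j, J ≤ j → ρ j = r) ∧ ∀ j, j ≤ -J → ρ j = r'

lemma countable_EC : {ρ | EC ρ}.Countable := by
  have : {ρ | EC ρ} ⊆ ⋃ J : ℤ, ⋃ r : ℤ, ⋃ r' : ℤ, Set.range
      fun g : Finset.Icc (-J) J → ℤ => fun j : ℤ =>
        if h : j ∈ Finset.Icc (-J) J then g ⟨j, h⟩ else if J ≤ j then r else r' := by
    rintro ρ ⟨J, r, r', h1, h2⟩
    simp only [Set.mem_iUnion]
    refine ⟨J, r, r', fun j => ρ j, ?_⟩
    ext j
    simp only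
    split_ifs with h h'
    · rfl
    · exact (h1 j h').symm
    · simp only [Finset.mem_Icc] at h
      exact (h2 j (by omega)).symm
  refine Set.Countable.mono this ?_
  exact Set.countable_iUnion fun J => Set.countable_iUnion fun r => Set.countable_iUnion fun r' =>
    Set.countable_range _

lemma ec_of_mono {ρ : ℤ → ℤ} (hm : Monotone ρ) {B : ℤ} (hB : ∀ j, |ρ j| ≤ B) : EC ρ := by
  obtain ⟨r, ⟨j1, h1⟩, h2⟩ := Int.exists_greatest_of_bdd (P := fun z => ∃ j, ρ j = z)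
    ⟨B, by rintro z ⟨j, rfl⟩; exact (abs_le.mp (hB j)).2⟩ ⟨_, 0, rfl⟩
  obtain ⟨r', ⟨j2, h3⟩, h4⟩ := Int.exists_least_of_bdd (P := fun z => ∃ j, ρ j = z)
    ⟨-B, by rintro z ⟨j, rfl⟩; exact (abs_le.mp (hB j)).1⟩ ⟨_, 0, rfl⟩
  refine ⟨max j1 (-j2), r, r', fun j hj => ?_, fun j hj => ?_⟩
  · exact le_antisymm (h2 _ ⟨j, rfl⟩) (h1 ▸ hm (by omega))
  · exact le_antisymm (h3 ▸ hm (by omega)) (h4 _ ⟨j, rfl⟩)

lemma ec_of_anti {ρ : ℤ → ℤ} (hm : Antitone ρ) {B : ℤ} (hB : ∀ j, |ρ j| ≤ B) : EC ρ := by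
  obtain ⟨J, r, r', h1, h2⟩ := ec_of_mono (ρ := fun j => -ρ j) (fun a b h => neg_le_neg (hm h))
    (B := B) (fun j => by rw [abs_neg]; exact hB j)
  exact ⟨J, -r, -r', fun j hj => by rw [← h1 j hj, neg_neg], fun j hj => by rw [← h2 j hj, neg_neg]⟩

variable {ι : Type*} (U : Ultrafilter ι)

lemma struct (lam : ℝ) {p q : ℕ} (hq : 0 < q) {α : ι → ℝ} (h0 : ∀ i, 0 < α i) (h1 : ∀ i, α i < 1)
    (hα : Tendsto α U (𝓝 ((p : ℝ) / q))) (ω : ι → ℝ) (hω0 : ∀ i, 0 ≤ ω i) (hω1 : ∀ i, ω i < 1) :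
    ∃ ρ, EC ρ ∧ ∀ j, ∀ᶠ i in U, stV lam (α i) (ω i) j = Vr lam p q ρ j := by
  have hq' : (0 : ℝ) < q := by positivity
  have he : Tendsto (fun i => q * α i - p) U (𝓝 0) := by
    have := (hα.const_mul (q : ℝ)).sub_const (p : ℝ)
    rwa [mul_div_cancel₀ _ hq'.ne', sub_self] at this
  have h2 : ∀ j : ℤ, ∃ v ∈ Finset.Icc (-1 : ℤ) (q + 1),
      ∀ᶠ i in U, ⌊q * ω i + j * (q * α i - p)⌋ = v := by
    intro j
    have h3 : Tendsto (fun i => (j : ℝ) * (q * α i - p)) U (𝓝 0) := by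
      simpa using he.const_mul (j : ℝ)
    have h4 : ∀ᶠ i in U, ∃ v ∈ Finset.Icc (-1 : ℤ) (q + 1), ⌊q * ω i + j * (q * α i - p)⌋ = v := by
      filter_upwards [h3.eventually (Ioo_mem_nhds (show (-1 : ℝ) < 0 by norm_num) one_pos)]
        with i hi
      refine ⟨_, ?_, rfl⟩
      rw [Finset.mem_Icc, Int.le_floor, Int.floor_le_iff]
      have := mul_nonneg hq'.le (hω0 i)
      have := mul_lt_mul_of_pos_left (hω1 i) hq'
      push_cast
      constructor <;> linarith [hi.1, hi.2]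
    exact (Ultrafilter.eventually_exists_mem_iff (Finset.finite_toSet _)).mp h4
  choose ρ hρ1 hρ2 using h2
  have hB : ∀ j, |ρ j| ≤ q + 1 := by
    intro j
    have := Finset.mem_Icc.mp (hρ1 j)
    rw [abs_le]; omega
  refine ⟨ρ, ?_, fun j => ?_⟩
  · have h3 : ∀ᶠ i in U, 0 ≤ q * α i - p ∨ q * α i - p ≤ 0 :=
      Eventually.of_forall fun i => le_total _ _
    rcases Ultrafilter.eventually_or.mp h3 with h | h
    · refine ec_of_mono (fun a b hab => ?_) hB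
      obtain ⟨i, h4, h5, h6⟩ := (h.and ((hρ2 a).and (hρ2 b))).exists
      rw [← h5, ← h6]
      apply Int.floor_mono
      have : (a : ℝ) ≤ b := by exact_mod_cast hab
      nlinarith
    · refine ec_of_anti (fun a b hab => ?_) hB
      obtain ⟨i, h4, h5, h6⟩ := (h.and ((hρ2 a).and (hρ2 b))).exists
      rw [← h5, ← h6]
      apply Int.floor_mono
      have : (a : ℝ) ≤ b := by exact_mod_cast hab
      nlinarith
  · filter_upwards [hρ2 j, hρ2 (j + 1)] with i h4 h5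
    rw [stV_floor lam (h0 i) (h1 i), floor_rho (p := p) hq, floor_rho (p := p) hq, h4, h5]
    rfl

/-- the limit of a family of sets along the ultrafilter -/
def lim (S : ι → Set ℝ) : Set ℝ :=
  {x | ∃ y : ι → ℝ, (∀ᶠ i in U, y i ∈ S i) ∧ Tendsto y U (𝓝 x)}

lemma mem_lim {S : ι → Set ℝ} (hS : ∀ i, IsClosed (S i)) {x : ℝ}
    (h : ∀ ε > 0, ∀ᶠ i in U, ∃ y ∈ S i, |y - x| ≤ ε) : x ∈ lim U S := by
  have h1 : ∀ i, ∃ y : ℝ, (S i).Nonempty → y ∈ S i ∧ Metric.infDist x (S i) = dist x y := by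
    intro i
    by_cases hn : (S i).Nonempty
    · obtain ⟨y, hy⟩ := (hS i).exists_infDist_eq_dist hn x
      exact ⟨y, fun _ => hy⟩
    · exact ⟨0, fun h => absurd h hn⟩
  choose y hy using h1
  refine ⟨y, ?_, ?_⟩
  · filter_upwards [h 1 one_pos] with i ⟨z, hz, _⟩
    exact (hy i ⟨z, hz⟩).1
  · rw [Metric.tendsto_nhds]
    intro ε hε
    filter_upwards [h (ε / 2) (by positivity)] with i ⟨z, hz, hz2⟩
    rw [dist_comm, ← (hy i ⟨z, hz⟩).2]
    refine (Metric.infDist_le_dist_of_mem hz).trans_lt ?_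
    rw [dist_comm, Real.dist_eq]
    linarith

lemma exists_ulim {y : ι → ℝ} {B : ℝ} (h : ∀ᶠ i in U, |y i| ≤ B) : ∃ x, Tendsto y U (𝓝 x) := by
  obtain ⟨x, -, hx⟩ := (isCompact_Icc (a := -B) (b := B)).ultrafilter_le_nhds (U.map y) (by
    rw [Ultrafilter.coe_map, le_principal_iff, mem_map]
    filter_upwards [h] with i hi
    exact abs_le.mp hi)
  exact ⟨x, hx⟩

lemma band_sub_lim (lam : ℝ) {p q : ℕ} (hq : 2 ≤ q) (hc : Nat.Coprime p q) {α ω : ι → ℝ}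
    (h0 : ∀ i, 0 < α i) (h1 : ∀ i, α i < 1) (hα : Tendsto α U (𝓝 ((p : ℝ) / q)))
    {H : ι → L2 →L[ℂ] L2} (hH : ∀ i, IsOp (stV lam (α i) (ω i)) (H i)) {E : ℝ}
    (hE : ((PD lam p q).eval E) ^ 2 ≤ 4) : E ∈ lim U fun i => rspec (H i) := by
  have hq0 : 0 < q := by omega
  refine mem_lim U (fun i => isClosed_rspec _) fun ε hε => ?_
  obtain ⟨N, hN⟩ := near_of_periodic (W0 lam p q) hq (W0_per lam p q hq0) hE hε
  obtain ⟨ρ, ⟨J, r, r', hr, -⟩, hρ⟩ := struct U lam hq0 h0 h1 hα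
    (fun i => Int.fract (((0 : ℤ) : ℝ) * α i + ω i)) (fun i => Int.fract_nonneg _)
    (fun i => Int.fract_lt_one _)
  obtain ⟨J', hJ, -, hJ'⟩ := exists_start lam hq0 hc r J
  have h2 : ∀ᶠ i in U, ∀ n ∈ Finset.range N,
      stV lam (α i) (Int.fract (((0 : ℤ) : ℝ) * α i + ω i)) (J' + n) = Vr lam p q ρ (J' + n) :=
    (Finset.eventually_all _).mpr fun n _ => hρ _
  filter_upwards [h2] with i hi
  refine hN _ _ _ J' (stV_abs lam _ _) (hH i) fun n hn => ?_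
  have h3 := stV_shift lam (α i) (ω i) 0 (J' + n)
  rw [zero_add] at h3
  rw [h3, hi n (Finset.mem_range.mpr hn), ← hJ', Vr, wd, hr _ (by omega), hr _ (by omega)]

lemma countable_lim_diff (lam : ℝ) {p q : ℕ} (hq : 0 < q) (hc : Nat.Coprime p q) {α ω : ι → ℝ}
    (h0 : ∀ i, 0 < α i) (h1 : ∀ i, α i < 1) (hα : Tendsto α U (𝓝 ((p : ℝ) / q)))
    {H : ι → L2 →L[ℂ] L2} (hH : ∀ i, IsOp (stV lam (α i) (ω i)) (H i))
    {ε : ι → ℝ} (hε0 : ∀ i, 0 < ε i) (hε : Tendsto ε U (𝓝 0)) :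
    {E | E ∈ lim U (fun i => rspec (H i)) ∧ 4 < ((PD lam p q).eval E) ^ 2}.Countable := by
  have hF : (⋃ ρ ∈ {ρ | EC ρ ∧ ∀ j, |Vr lam p q ρ j| ≤ |lam|},
      {E : ℝ | ∃ y : ℤ → ℝ, y 0 = 1 ∧ Summable (fun j => y j ^ 2) ∧
        ∀ j, y (j + 1) + y (j - 1) + (Vr lam p q ρ j - E) * y j = 0}).Countable :=
    Set.Countable.biUnion (countable_EC.mono fun ρ h => h.1) fun ρ h => countable_sol h.2
  refine hF.mono ?_
  rintro E ⟨⟨x, hx1, hx2⟩, hE⟩
  obtain ⟨θ, hθ0, hθ1, hθ⟩ := decay hq hE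
  obtain ⟨K, hK⟩ := exists_local hθ0 hθ1
  have h2 : ∀ i, ∃ (m : ℤ) (y : ℤ → ℝ), x i ∈ rspec (H i) → (y 0 = 1 ∧
      (∀ j : ℤ, θ ^ j.natAbs * y j ^ 2 ≤ K) ∧ ∀ j : ℤ, θ ^ j.natAbs * (y (j + 1) + y (j - 1) +
        (stV lam (α i) (ω i) (m + j) - x i) * y j) ^ 2 ≤ K * ε i ^ 2) := by
    intro i
    by_cases h : x i ∈ rspec (H i)
    · obtain ⟨m, y, hy⟩ := hK _ _ _ (stV_abs lam _ _) (hH i) _ h _ (hε0 i)
      exact ⟨m, y, fun _ => hy⟩
    · exact ⟨0, 0, fun h' => absurd h' h⟩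
  choose m y hy using h2
  have hy' := hx1.mono hy
  obtain ⟨ρ, hρ1, hρ⟩ := struct U lam hq h0 h1 hα
    (fun i => Int.fract ((m i : ℝ) * α i + ω i)) (fun i => Int.fract_nonneg _)
    (fun i => Int.fract_lt_one _)
  have h3 : ∀ j : ℤ, ∃ z, Tendsto (fun i => y i j) U (𝓝 z) := by
    intro j
    refine exists_ulim U (B := Real.sqrt (K / θ ^ j.natAbs)) ?_
    filter_upwards [hy'] with i hi
    apply Real.abs_le_sqrt
    rw [le_div_iff₀ (by positivity), mul_comm]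
    exact hi.2.1 j
  choose z hz using h3
  have hz0 : z 0 = 1 := tendsto_nhds_unique (hz 0)
    (tendsto_const_nhds.congr' (hy'.mono fun i hi => hi.1.symm))
  have hzK : ∀ j : ℤ, θ ^ j.natAbs * z j ^ 2 ≤ K := fun j =>
    le_of_tendsto (((hz j).pow 2).const_mul _) (hy'.mono fun i hi => hi.2.1 j)
  have hzs : ∀ j, z (j + 1) + z (j - 1) + (Vr lam p q ρ j - E) * z j = 0 := by
    intro j
    have h4 : Tendsto (fun i => θ ^ j.natAbs * (y i (j + 1) + y i (j - 1) +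
        (Vr lam p q ρ j - x i) * y i j) ^ 2 - K * ε i ^ 2) U (𝓝 (θ ^ j.natAbs *
          (z (j + 1) + z (j - 1) + (Vr lam p q ρ j - E) * z j) ^ 2 - K * 0 ^ 2)) :=
      ((((((hz _).add (hz _)).add ((hx2.const_sub _).mul (hz _))).pow 2).const_mul _).sub
        ((hε.pow 2).const_mul _))
    have h5 := le_of_tendsto (b := 0) h4 (by
      filter_upwards [hy', hρ j] with i hi hi2
      have h6 := hi.2.2 j
      rw [stV_shift, hi2] at h6
      linarith)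
    have h6 : 0 < θ ^ j.natAbs := by positivity
    have h7 : (z (j + 1) + z (j - 1) + (Vr lam p q ρ j - E) * z j) ^ 2 ≤ 0 := by
      by_contra hcon
      push Not at hcon
      have := mul_pos h6 hcon
      simp only [ne_eq, OfNat.ofNat_ne_zero, not_false_eq_true, zero_pow, mul_zero,
        sub_zero] at h5
      linarith
    exact pow_eq_zero_iff (two_ne_zero) |>.mp (le_antisymm h7 (sq_nonneg _))
  have hVb : ∀ j, |Vr lam p q ρ j| ≤ |lam| := by
    intro j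
    obtain ⟨i, hi⟩ := (hρ j).exists
    rw [← hi]; exact stV_abs _ _ _ _
  simp only [Set.mem_iUnion]
  refine ⟨ρ, ⟨hρ1, hVb⟩, z, hz0, ?_, hzs⟩
  obtain ⟨J, r, r', hr, hr'⟩ := hρ1
  apply Summable.of_nat_of_neg
  · refine hθ (fun i => z i) K J.toNat (fun i => by simpa using hzK i) fun i hi => ?_
    have h4 := cayley_int lam hq hc hzs r i (fun n _ => by
      rw [Vr, wd, hr _ (by omega), hr _ (by omega)])
    push_cast
    exact h4
  · refine hθ (fun i => z (-i)) K J.toNat (fun i => by simpa using hzK (-i)) fun i hi => ?_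
    have h4 := cayley_int lam hq hc hzs r' (-(i + (q + q))) (fun n _ => by
      rw [Vr, wd, hr' _ (by omega), hr' _ (by omega)])
    push_cast
    rw [show -((i : ℤ) + (q + q)) + (q + q) = -i by ring,
      show -((i : ℤ) + (q + q)) + q = -(i + q) by ring] at h4
    linarith

end Pool.Agent.H416Z.St
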