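import Mathlib
import Pool.Agent.H416Z.StLim

set_option autoImplicit false

namespace Pool.Agent.H416Z.St

open Polynomial Filter Topology Set

lemma not_countable_Ioo {a b : ℝ} (h : a < b) : ¬ (Ioo a b).Countable := by
  intro hc
  have := hc.measure_zero MeasureTheory.volume
  rw [Real.volume_Ioo, ENNReal.ofReal_eq_zero] at this
  linarith

lemma open_not_countable {s : Set ℝ} (hs : IsOpen s) {x : ℝ} (hx : x ∈ s) : ¬ s.Countable := by
  intro hc
  obtain ⟨a, b, hab, hsub⟩ := mem_nhds_iff_exists_Ioo_subset.mp (hs.mem_nhds hx)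
  exact not_countable_Ioo (hab.1.trans hab.2) (hc.mono hsub)

/-- counting bands through a homeomorphism -/
lemma count {K K' : Set ℝ} {h g : ℝ → ℝ} (hh : ContinuousOn h K) (hg : ContinuousOn g K')
    (hm : MapsTo h K K') (gm : MapsTo g K' K) (hgh : ∀ x ∈ K, g (h x) = x) {P P' : ℝ[X]}
    (h1 : ∀ E, (P.eval E) ^ 2 ≤ 4 → E ∈ K) (h2 : {E | E ∈ K ∧ 4 < (P.eval E) ^ 2}.Countable)
    (h1' : ∀ E, (P'.eval E) ^ 2 ≤ 4 → E ∈ K') (h2' : {E | E ∈ K' ∧ 4 < (P'.eval E) ^ 2}.Countable)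
    {p : ℕ} (hp : 1 ≤ p) (hP' : P'.Monic) (hd : P'.natDegree = p) {T : Finset ℝ}
    (hT : ∀ r ∈ T, P.eval r = 0)
    (hT2 : ∀ r ∈ T, ∀ r' ∈ T, r < r' → ∃ x, r < x ∧ x < r' ∧ 4 < (P.eval x) ^ 2) :
    T.card ≤ 2 * p := by
  set Q : ℝ[X] := P' ^ 2 - C 4 with hQ
  have hQe : ∀ x, Q.eval x = (P'.eval x) ^ 2 - 4 := fun x => by simp [hQ]
  have hQd : Q.natDegree = 2 * p := by rw [hQ, natDegree_sub_C, hP'.natDegree_pow, hd]
  have hQ0 : Q ≠ 0 := by
    intro h0; rw [h0, natDegree_zero] at hQd; omega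
  have hcont : Continuous fun x => (P.eval x) ^ 2 := P.continuous.pow 2
  have hcont' : Continuous fun x => (P'.eval x) ^ 2 := P'.continuous.pow 2
  have hbig : ∀ y : ℝ, ∃ x, y ≤ x ∧ 4 ≤ (P'.eval x) ^ 2 := by
    intro y
    have h3 : Tendsto (fun x => P'.eval x) atTop atTop :=
      P'.tendsto_atTop_of_leadingCoeff_nonneg
        (by rw [degree_eq_natDegree hP'.ne_zero, hd]; exact_mod_cast hp)
        (by rw [hP'.leadingCoeff]; exact zero_le_one)
    obtain ⟨x, hx1, hx2⟩ := ((eventually_ge_atTop y).and (h3.eventually_ge_atTop 2)).exists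
    exact ⟨x, hx1, by nlinarith⟩
  have key : ∀ r ∈ T, ∃ x t : ℝ, r ≤ x ∧ (∀ z ∈ Icc r x, (P.eval z) ^ 2 ≤ 4) ∧ h x ≤ t ∧
      Icc (h x) t ⊆ K' ∧ Q.eval t = 0 := by
    intro r hr
    have h3 : {z | (P.eval z) ^ 2 < 4} ∈ 𝓝 r :=
      (isOpen_lt hcont continuous_const).mem_nhds (by simp [hT r hr])
    obtain ⟨a, b, hab, hsub⟩ := mem_nhds_iff_exists_Ioo_subset.mp h3
    set b' := (r + b) / 2 with hb'
    have hrb : r < b' := by linarith [hab.2]
    have h4 : ∀ z ∈ Icc r b', (P.eval z) ^ 2 ≤ 4 := fun z hz =>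
      le_of_lt (hsub ⟨hab.1.trans_le hz.1, by linarith [hz.2, hab.2]⟩)
    have h5 : Icc r b' ⊆ K := fun z hz => h1 z (h4 z hz)
    have h6 : (h '' Icc r b').OrdConnected :=
      (isPreconnected_Icc.image h (hh.mono h5)).ordConnected
    have hr1 : r ∈ Icc r b' := left_mem_Icc.mpr hrb.le
    have hr2 : b' ∈ Icc r b' := right_mem_Icc.mpr hrb.le
    have h7 : h r ≠ h b' := by
      intro he
      have := congrArg g he
      rw [hgh r (h5 hr1), hgh b' (h5 hr2)] at this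
      exact hrb.ne this
    have h8 : Ioo (min (h r) (h b')) (max (h r) (h b')) ⊆ h '' Icc r b' :=
      Ioo_subset_Icc_self.trans (h6.uIcc_subset (mem_image_of_mem h hr1) (mem_image_of_mem h hr2))
    have h9 : ∃ y ∈ h '' Icc r b', (P'.eval y) ^ 2 < 4 := by
      by_contra hcon
      push Not at hcon
      apply not_countable_Ioo (min_lt_max.mpr h7)
      refine (h2'.union (Q.roots.finite_toSet).countable).mono fun y hy => ?_
      have hy1 := h8 hy
      rcases (hcon y hy1).eq_or_lt with h | h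
      · right
        show y ∈ Q.roots
        rw [mem_roots hQ0, IsRoot.def, hQe, ← h, sub_self]
      · left
        obtain ⟨x, hx, rfl⟩ := hy1
        exact ⟨hm (h5 hx), h⟩
    obtain ⟨_, ⟨x, hx, rfl⟩, hy⟩ := h9
    set A := {z | h x ≤ z ∧ 4 ≤ (P'.eval z) ^ 2} with hA
    have hAc : IsClosed A := isClosed_Ici.inter (isClosed_le continuous_const hcont')
    have hAb : BddBelow A := ⟨h x, fun z hz => hz.1⟩
    have ht := hAc.csInf_mem (hbig (h x)) hAb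
    set t := sInf A with htd
    have hxt : h x < t := lt_of_le_of_ne ht.1 (by
      intro he; have := ht.2; rw [← he] at this; linarith)
    have h10 : Ico (h x) t ⊆ {z | (P'.eval z) ^ 2 ≤ 4} := by
      intro z hz
      by_contra hcon
      have : t ≤ z := csInf_le hAb ⟨hz.1, le_of_lt (not_le.mp hcon)⟩
      linarith [hz.2]
    have h11 : Icc (h x) t ⊆ {z | (P'.eval z) ^ 2 ≤ 4} := by
      rw [← closure_Ico hxt.ne]
      exact (isClosed_le hcont' continuous_const).closure_subset_iff.mpr h10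
    refine ⟨x, t, hx.1, fun z hz => h4 z ⟨hz.1, hz.2.trans hx.2⟩, hxt.le,
      fun z hz => h1' z (h11 hz), ?_⟩
    have := h11 (right_mem_Icc.mpr hxt.le)
    rw [hQe, sub_eq_zero]
    exact le_antisymm this ht.2
  choose! x t hx1 hx2 hx3 hx4 hx5 using key
  have hne : ∀ r ∈ T, ∀ r' ∈ T, r < r' → t r ≠ t r' := by
    intro r hr r' hr' hlt he
    obtain ⟨c, hc1, hc2, hc3⟩ := hT2 r hr r' hr' hlt
    have h3 : x r < c := by
      by_contra hcon
      have := hx2 r hr c ⟨hc1.le, not_lt.mp hcon⟩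
      linarith
    have h4 : c < x r' := hc2.trans_le (hx1 r' hr')
    have hxK : ∀ r ∈ T, x r ∈ K := fun r hr => h1 _ (hx2 r hr _ (right_mem_Icc.mpr (hx1 r hr)))
    have h5 : IsPreconnected (Icc (h (x r)) (t r) ∪ Icc (h (x r')) (t r')) :=
      isPreconnected_Icc.union (t r) (right_mem_Icc.mpr (hx3 r hr))
        (by rw [he]; exact right_mem_Icc.mpr (hx3 r' hr')) isPreconnected_Icc
    have h6 : Icc (h (x r)) (t r) ∪ Icc (h (x r')) (t r') ⊆ K' := union_subset (hx4 r hr) (hx4 r' hr')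
    have h7 := (h5.image g (hg.mono h6)).ordConnected
    have h8 : Icc (x r) (x r') ⊆ K := by
      refine (h7.out ⟨h (x r), Or.inl (left_mem_Icc.mpr (hx3 r hr)), hgh _ (hxK r hr)⟩
        ⟨h (x r'), Or.inr (left_mem_Icc.mpr (hx3 r' hr')), hgh _ (hxK r' hr')⟩).trans ?_
      rintro _ ⟨y, hy, rfl⟩
      exact gm (h6 hy)
    refine open_not_countable (s := Ioo (x r) (x r') ∩ {z | 4 < (P.eval z) ^ 2})
      (isOpen_Ioo.inter (isOpen_lt continuous_const hcont)) (x := c) ⟨⟨h3, h4⟩, hc3⟩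
      (h2.mono ?_)
    intro z hz
    exact ⟨h8 (Ioo_subset_Icc_self hz.1), hz.2⟩
  calc T.card ≤ Q.roots.toFinset.card := by
        refine Finset.card_le_card_of_injOn t (fun r hr => ?_) fun r hr r' hr' he => ?_
        · simp only [Finset.mem_coe, Multiset.mem_toFinset]
          exact (mem_roots hQ0).mpr (hx5 r hr)
        · rcases lt_trichotomy r r' with h | h | h
          · exact absurd he (hne r hr r' hr' h)
          · exact h
          · exact absurd he.symm (hne r' hr' r hr h)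
    _ ≤ Q.roots.card := Multiset.toFinset_card_le _
    _ ≤ Q.natDegree := card_roots' Q
    _ = 2 * p := hQd

/-- there is an `L`-bi-Lipschitz bijection from `A` onto `B` -/
def BiLip (L : ℝ) (A B : Set ℝ) : Prop :=
  ∃ f : ℝ → ℝ, f '' A = B ∧ ∀ x ∈ A, ∀ x' ∈ A,
    |f x - f x'| ≤ L * |x - x'| ∧ |x - x'| ≤ L * |f x - f x'|

lemma contOn_of_lip {f : ℝ → ℝ} {A : Set ℝ} {L : ℝ}
    (h : ∀ x ∈ A, ∀ x' ∈ A, |f x - f x'| ≤ L * |x - x'|) : ContinuousOn f A := by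
  refine (LipschitzOnWith.of_dist_le_mul (K := L.toNNReal) fun x hx x' hx' => ?_).continuousOn
  rw [Real.dist_eq, Real.dist_eq]
  refine (h x hx x' hx').trans ?_
  gcongr
  exact Real.le_coe_toNNReal L

lemma lim_homeo {ι : Type*} (U : Ultrafilter ι) {A B : ι → Set ℝ} {R L : ℝ}
    (hA : ∀ i, ∀ x ∈ A i, |x| ≤ R) (hB : ∀ i, ∀ x ∈ B i, |x| ≤ R) (hL : ∀ i, BiLip L (A i) (B i)) :
    ∃ h g : ℝ → ℝ, ContinuousOn h (lim U A) ∧ ContinuousOn g (lim U B) ∧
      MapsTo h (lim U A) (lim U B) ∧ MapsTo g (lim U B) (lim U A) ∧ ∀ x ∈ lim U A, g (h x) = x := by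
  choose f hf1 hf2 using hL
  set Γ : ℝ → ℝ → Prop := fun x y => ∃ u : ι → ℝ, (∀ᶠ i in U, u i ∈ A i) ∧ Tendsto u U (𝓝 x) ∧
    Tendsto (fun i => f i (u i)) U (𝓝 y) with hΓ
  have hfA : ∀ i, ∀ x ∈ A i, f i x ∈ B i := fun i x hx => hf1 i ▸ mem_image_of_mem _ hx
  have g1 : ∀ x y, Γ x y → x ∈ lim U A ∧ y ∈ lim U B := by
    rintro x y ⟨u, h1, h2, h3⟩
    exact ⟨⟨u, h1, h2⟩, ⟨_, h1.mono fun i hi => hfA i _ hi, h3⟩⟩
  have g2 : ∀ x ∈ lim U A, ∃ y, Γ x y := by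
    rintro x ⟨u, h1, h2⟩
    obtain ⟨y, hy⟩ := exists_ulim U (y := fun i => f i (u i)) (B := R)
      (h1.mono fun i hi => hB i _ (hfA i _ hi))
    exact ⟨y, u, h1, h2, hy⟩
  have g3 : ∀ y ∈ lim U B, ∃ x, Γ x y := by
    rintro y ⟨v, h1, h2⟩
    have h3 : ∀ i, ∃ x, v i ∈ B i → x ∈ A i ∧ f i x = v i := by
      intro i
      by_cases h : v i ∈ B i
      · rw [← hf1 i] at h
        obtain ⟨x, hx⟩ := h
        exact ⟨x, fun _ => hx⟩
      · exact ⟨0, fun h' => absurd h' h⟩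
    choose u hu using h3
    have h4 := h1.mono hu
    obtain ⟨x, hx⟩ := exists_ulim U (y := u) (B := R) (h4.mono fun i hi => hA i _ hi.1)
    exact ⟨x, u, h4.mono fun i hi => hi.1, hx, h2.congr' (h4.mono fun i hi => hi.2.symm)⟩
  have g4 : ∀ x y x' y', Γ x y → Γ x' y' → |y - y'| ≤ L * |x - x'| ∧ |x - x'| ≤ L * |y - y'| := by
    rintro x y x' y' ⟨u, h1, h2, h3⟩ ⟨u', h1', h2', h3'⟩
    constructor
    · exact le_of_tendsto_of_tendsto (h3.sub h3').abs ((h2.sub h2').abs.const_mul L)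
        ((h1.and h1').mono fun i hi => (hf2 i _ hi.1 _ hi.2).1)
    · exact le_of_tendsto_of_tendsto (h2.sub h2').abs ((h3.sub h3').abs.const_mul L)
        ((h1.and h1').mono fun i hi => (hf2 i _ hi.1 _ hi.2).2)
  choose! h hh using g2
  choose! g hg using g3
  refine ⟨h, g, contOn_of_lip (L := L) fun x hx x' hx' => (g4 _ _ _ _ (hh x hx) (hh x' hx')).1,
    contOn_of_lip (L := L) fun x hx x' hx' => (g4 _ _ _ _ (hg x hx) (hg x' hx')).2,
    fun x hx => (g1 _ _ (hh x hx)).2, fun y hy => (g1 _ _ (hg y hy)).1, fun x hx => ?_⟩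
  have := (g4 _ _ _ _ (hg _ (g1 _ _ (hh x hx)).2) (hh x hx)).2
  rw [sub_self, abs_zero, mul_zero] at this
  exact sub_eq_zero.mp (abs_eq_zero.mp (le_antisymm this (abs_nonneg _)))

/-- frequencies at which the two spectra are `L`-bi-Lipschitz equivalent -/
def bad (lam L : ℝ) : Set ℝ :=
  {α | α ∈ Ioo (1 / 3 : ℝ) (1 / 2) ∧ ∃ (ω ω' : ℝ) (H H' : L2 →L[ℂ] L2), IsOp (stV lam α ω) H ∧
    IsOp (stV lam (α⁻¹ - 2) ω') H' ∧ BiLip L (rspec H) (rspec H')}

lemma rat_notMem {lam : ℝ} (hl : lam ≠ 0) (L : ℝ) {p q : ℕ} (hc : Nat.Coprime p q)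
    (h2 : 2 * p < q) (h3 : q < 3 * p) : (p : ℝ) / q ∉ closure (bad lam L) := by
  intro hcl
  obtain ⟨α, hα1, hα2⟩ := mem_closure_iff_seq_limit.mp hcl
  choose hα3 ω ω' H H' hH hH' hL using hα1
  set U := hyperfilter ℕ with hU
  have hUle : (U : Filter ℕ) ≤ atTop := by
    rw [← Nat.cofinite_eq_atTop]; exact hyperfilter_le_cofinite
  have hα : Tendsto α U (𝓝 ((p : ℝ) / q)) := hα2.mono_left hUle
  have hε : Tendsto (fun n : ℕ => 1 / ((n : ℝ) + 1)) U (𝓝 0) :=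
    tendsto_one_div_add_atTop_nhds_zero_nat.mono_left hUle
  have hε0 : ∀ n : ℕ, 0 < 1 / ((n : ℝ) + 1) := fun n => by positivity
  have hp : 2 ≤ p := by omega
  have hq : 2 ≤ q := by omega
  have hc' : Nat.Coprime (q - 2 * p) p := by
    have : Nat.Coprime (q - 2 * p + 2 * p) p := by
      rw [Nat.sub_add_cancel h2.le]; exact hc.symm
    exact (Nat.coprime_add_mul_right_left _ _ _).mp this
  have hp' : (0 : ℝ) < p := by positivity
  have hq' : (0 : ℝ) < q := by positivity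
  have hβ : Tendsto (fun i => (α i)⁻¹ - 2) U (𝓝 (((q - 2 * p : ℕ) : ℝ) / p)) := by
    have := (hα.inv₀ (by positivity)).sub_const 2
    convert this using 2
    rw [Nat.cast_sub h2.le]
    push_cast
    field_simp
  have a0 : ∀ i, 0 < α i := fun i => by linarith [(hα3 i).1]
  have a1 : ∀ i, α i < 1 := fun i => by linarith [(hα3 i).2]
  have b0 : ∀ i, 0 < (α i)⁻¹ - 2 := fun i => by
    have := inv_strictAnti₀ (a0 i) (hα3 i).2
    norm_num at this
    linarith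
  have b1 : ∀ i, (α i)⁻¹ - 2 < 1 := fun i => by
    have := inv_strictAnti₀ (by norm_num) (hα3 i).1
    norm_num at this
    linarith
  obtain ⟨h, g, c1, c2, c3, c4, c5⟩ := lim_homeo U (A := fun i => rspec (H i))
    (B := fun i => rspec (H' i)) (R := 2 + |lam|)
    (fun i x hx => (hH i).abs_le (stV_abs _ _ _) hx)
    (fun i x hx => (hH' i).abs_le (stV_abs _ _ _) hx) hL
  obtain ⟨T, hT1, hT2, hT3⟩ := exists_roots (W0 lam p q) q hq (not_scal hl hq hc)
  obtain ⟨m1, m2⟩ := pdisc_monic (W0 lam (q - 2 * p) p) p (by omega)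
  have := count c1 c2 c3 c4 c5 (P := PD lam p q) (P' := PD lam (q - 2 * p) p)
    (fun E hE => band_sub_lim U lam hq hc a0 a1 hα hH hE)
    (countable_lim_diff U lam (by omega) hc a0 a1 hα hH hε0 hε)
    (fun E hE => band_sub_lim U lam hp hc' b0 b1 hβ hH' hE)
    (countable_lim_diff U lam (by omega) hc' b0 b1 hβ hH' hε0 hε)
    (by omega) m1 m2 hT2 hT3
  omega

lemma dense_good {lam : ℝ} (hl : lam ≠ 0) (L : ℝ) : Dense (closure (bad lam L))ᶜ := by
  have h1 : Dense (range ((↑) : ℚ → ℝ) \ {1 / 3, 1 / 2}) :=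
    Dense.sdiff_finite Rat.denseRange_cast (toFinite _)
  refine h1.mono ?_
  rintro _ ⟨⟨r, rfl⟩, hr⟩ hcl
  have h2 : (r : ℝ) ∈ Icc (1 / 3 : ℝ) (1 / 2) :=
    (isClosed_Icc.closure_subset_iff.mpr fun α hα => Ioo_subset_Icc_self hα.1) hcl
  simp only [mem_insert_iff, mem_singleton_iff, not_or] at hr
  have h3 : (1 / 3 : ℝ) < r := lt_of_le_of_ne h2.1 (Ne.symm hr.1)
  have h4 : (r : ℝ) < 1 / 2 := lt_of_le_of_ne h2.2 hr.2
  have h5 : 0 < r := by
    have : (0 : ℝ) < r := by linarith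
    exact_mod_cast this
  have h6 : 0 < r.num := Rat.num_pos.mpr h5
  have h7 : (r : ℝ) = (r.num.natAbs : ℝ) / r.den := by
    rw [Rat.cast_def]
    congr 1
    rw [← Int.cast_natCast, Int.natAbs_of_nonneg h6.le]
  have hd : (0 : ℝ) < r.den := by exact_mod_cast r.den_pos
  rw [h7] at hcl h3 h4
  rw [lt_div_iff₀ hd] at h3
  rw [div_lt_iff₀ hd] at h4
  refine rat_notMem hl L r.reduced ?_ ?_ hcl
  · have : (2 : ℝ) * r.num.natAbs < r.den := by linarith
    exact_mod_cast this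
  · have : (r.den : ℝ) < 3 * r.num.natAbs := by linarith
    exact_mod_cast this

theorem exists_good {lam : ℝ} (hl : lam ≠ 0) :
    ∃ α ∈ Ioo (1 / 3 : ℝ) (1 / 2), Irrational α ∧ ∀ L : ℕ, α ∉ bad lam L := by
  have h1 : Dense (⋂ L : ℕ, (closure (bad lam L))ᶜ) :=
    dense_iInter_of_isOpen (fun L => isClosed_closure.isOpen_compl) fun L => dense_good hl L
  have h2 : Dense ((⋂ L : ℕ, (closure (bad lam L))ᶜ) ∩ {x | Irrational x}) :=
    Dense.inter_of_Gδ (IsGδ.iInter fun L => isClosed_closure.isOpen_compl.isGδ) IsGδ.setOfPred_irrational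
      h1 dense_irrational
  obtain ⟨α, h3, h4, h5⟩ := h2.inter_open_nonempty (Ioo (1 / 3 : ℝ) (1 / 2)) isOpen_Ioo
    (nonempty_Ioo.mpr (by norm_num))
  exact ⟨α, h3, h5, fun L hL => (mem_iInter.mp h4 L) (subset_closure hL)⟩

lemma lip_of_contDiff {f : ℝ → ℝ} {U A : Set ℝ} (hU : IsOpen U) (hA : IsCompact A) (hAU : A ⊆ U)
    (hf : ContDiffOn ℝ 1 f U) : ∃ L : ℝ, 0 ≤ L ∧ ∀ x ∈ A, ∀ x' ∈ A, |f x - f x'| ≤ L * |x - x'| := by
  have h1 : LocallyLipschitzOn A f := by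
    intro x hx
    obtain ⟨K, t, ht, hK⟩ := (hf.contDiffAt (hU.mem_nhds (hAU hx))).exists_lipschitzOnWith
    exact ⟨K, t, mem_nhdsWithin_of_mem_nhds ht, hK⟩
  obtain ⟨K, hK⟩ := h1.exists_lipschitzOnWith_of_compact hA
  exact ⟨K, K.2, fun x hx x' hx' => by simpa [Real.dist_eq] using hK.dist_le_mul x hx x' hx'⟩

lemma bilip_of_diffeo {f g : ℝ → ℝ} {U V A B : Set ℝ} (hU : IsOpen U) (hV : IsOpen V)
    (hA : IsCompact A) (hB : IsCompact B) (hAU : A ⊆ U) (hBV : B ⊆ V) (hf : ContDiffOn ℝ 1 f U)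
    (hg : ContDiffOn ℝ 1 g V) (hgf : ∀ x ∈ U, g (f x) = x) (hAB : f '' A = B) :
    ∃ L : ℕ, BiLip L A B := by
  obtain ⟨L1, h0, h1⟩ := lip_of_contDiff hU hA hAU hf
  obtain ⟨L2, h0', h2⟩ := lip_of_contDiff hV hB hBV hg
  obtain ⟨L, hL⟩ := exists_nat_ge (L1 + L2)
  refine ⟨L, f, hAB, fun x hx x' hx' => ⟨(h1 x hx x' hx').trans ?_, ?_⟩⟩
  · gcongr; linarith
  · have := h2 (f x) (hAB ▸ mem_image_of_mem f hx) (f x') (hAB ▸ mem_image_of_mem f hx')
    rw [hgf x (hAU hx), hgf x' (hAU hx')] at this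
    refine this.trans ?_
    gcongr; linarith

lemma fract_inv {α : ℝ} (h : α ∈ Ioo (1 / 3 : ℝ) (1 / 2)) : ⌊α⁻¹⌋ = 2 ∧ Int.fract α⁻¹ = α⁻¹ - 2 := by
  have a0 : 0 < α := by linarith [h.1]
  have b0 := inv_strictAnti₀ a0 h.2
  have b1 := inv_strictAnti₀ (by norm_num) h.1
  norm_num at b0 b1
  have : ⌊α⁻¹⌋ = 2 := by
    rw [Int.floor_eq_iff]; push_cast; constructor <;> linarith
  exact ⟨this, by rw [Int.fract, this]; norm_num⟩

/-- main theorem: no bi-Lipschitz equivalence -/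
theorem main {lam : ℝ} (hl : lam ≠ 0) :
    ∃ α ∈ Ioo (1 / 3 : ℝ) (1 / 2), Irrational α ∧ ∀ (ω ω' : ℝ) (H H' : L2 →L[ℂ] L2),
      IsOp (stV lam α ω) H → IsOp (stV lam (Int.fract α⁻¹) ω') H' →
      ∀ L : ℕ, ¬ BiLip L (rspec H) (rspec H') := by
  obtain ⟨α, h1, h2, h3⟩ := exists_good hl
  refine ⟨α, h1, h2, fun ω ω' H H' hH hH' L hL => h3 L ⟨h1, ω, ω', H, H', hH, ?_, hL⟩⟩
  rwa [(fract_inv h1).2] at hH'

end Pool.Agent.H416Z.St
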