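import Mathlib
import Pool.Agent.H416Z.StMain

set_option autoImplicit false

namespace Pool.Agent.H416Z.St

lemma rspec_eq {V : ℤ → ℝ} {H : L2 →L[ℂ] L2} (hH : IsOp V H) :
    rspec H = {E : ℝ | ¬ ∀ u : ℤ → ℂ, Memℓp u 2 → ∃! v : ℤ → ℂ, Memℓp v 2 ∧
      ∀ n : ℤ, v (n + 1) + v (n - 1) + (V n : ℂ) * v n - (E : ℂ) * v n = u n} := by
  ext E
  have h1 : E ∈ rspec H ↔ ¬ Function.Bijective (H - algebraMap ℂ (L2 →L[ℂ] L2) (E : ℂ)) := by
    rw [← ContinuousLinearMap.isUnit_iff_bijective, ← IsUnit.neg_iff, neg_sub]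
    exact spectrum.mem_iff
  have h2 : ∀ (ψ : L2) (n : ℤ), (H - algebraMap ℂ (L2 →L[ℂ] L2) (E : ℂ)) ψ n =
      ψ (n + 1) + ψ (n - 1) + (V n : ℂ) * ψ n - (E : ℂ) * ψ n := by
    intro ψ n
    rw [← hH ψ n, Algebra.algebraMap_eq_smul_one]
    rfl
  rw [h1, Set.mem_ofPred_eq, not_iff_not, Function.bijective_iff_existsUnique]
  constructor
  · intro h u hu
    obtain ⟨ψ, h3, h4⟩ := h ⟨u, hu⟩
    refine ⟨ψ, ⟨lp.memℓp ψ, fun n => ?_⟩, fun v hv => ?_⟩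
    · rw [← h2, h3]
    · have := h4 ⟨v, hv.1⟩ (by
        ext n
        rw [h2]
        exact hv.2 n)
      rw [← this]
  · intro h u
    obtain ⟨v, h3, h4⟩ := h u (lp.memℓp u)
    refine ⟨⟨v, h3.1⟩, ?_, fun ψ hψ => ?_⟩
    · ext n
      rw [h2]
      exact h3.2 n
    · ext n
      have := h4 ψ ⟨lp.memℓp ψ, fun n => by rw [← h2, hψ]⟩
      exact congrFun this n

end Pool.Agent.H416Z.St
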